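import Mathlib
import Pool.Agent.Helper72.TW.Defs
import Pool.Agent.Helper79.TL.Gaif

/-!
# GH: large girth, definitions

`LG`: graphs with labels of pairs. `br`: classes of branches (colour refinement without backtracking), `rt`: classes of
points. `Lev`: the ball of radius `R` is a tree. `DS`: dart systems over a group, `cov` the graph covering them.
-/

set_option autoImplicit false

namespace Pool.Agent.Helper37.GH

open FirstOrder FirstOrder.Language
open Pool.Agent.Helper72.TW
open Pool.Agent.Helper79.TL (gaifman)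

/-! ### Labelled graphs and classes -/

/-- A graph with labels of the ordered pairs of points (used for equal and for adjacent points). -/
structure LG (Λ V : Type) where
  G : SimpleGraph V
  el : V → V → Λ

/-- Classes of level `i` of ordered pairs of adjacent points, the counts are capped at `T`. -/
def Cl (Λ : Type) (T : ℕ) : ℕ → Type
  | 0 => Λ
  | i + 1 => Λ × (Cl Λ T i → Fin (T + 1))

/-- The number of elements, capped at `T`. -/
noncomputable def cap {V : Type} (T : ℕ) (s : Set V) : Fin (T + 1) := ⟨min T s.ncard, by omega⟩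

/-- The class of level `i` of the branch at `v` seen from `u`. -/
noncomputable def br {Λ V : Type} (E : LG Λ V) (T : ℕ) : ∀ i : ℕ, V → V → Cl Λ T i
  | 0, u, v => E.el u v
  | i + 1, u, v => (E.el u v, fun c => cap T {w | E.G.Adj v w ∧ w ≠ u ∧ br E T i v w = c})

/-- Classes of level `R` of points. -/
abbrev Rt (Λ : Type) (T R : ℕ) : Type := Λ × (Cl Λ T R × Cl Λ T R → Fin (T + 1))

/-- The class of level `R` of a point. -/
noncomputable def rt {Λ V : Type} (E : LG Λ V) (T R : ℕ) (x : V) : Rt Λ T R :=
  (E.el x x, fun c => cap T {z | E.G.Adj x z ∧ br E T R x z = c.1 ∧ br E T R z x = c.2})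

/-- For adjacent points the label determines the label of the reversed pair and those of the points. -/
def Coh {Λ V V' : Type} (E : LG Λ V) (E' : LG Λ V') : Prop :=
  ∀ u v u' v', E.G.Adj u v → E'.G.Adj u' v' → E.el u v = E'.el u' v' →
    E.el v u = E'.el v' u' ∧ E.el u u = E'.el u' u' ∧ E.el v v = E'.el v' v'

/-! ### Balls -/

/-- The ball of radius `R` around `x` is a tree of degree at most `T`. -/
structure Lev {V : Type} (G : SimpleGraph V) (T R : ℕ) (x : V) : Prop where
  deg : ∀ y, G.edist x y ≤ R → (G.neighborSet y).ncard ≤ T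
  flat : ∀ (r : ℕ) (y z : V), r ≤ R → G.edist x y = r → G.edist x z = r → ¬ G.Adj y z
  uniq : ∀ (r : ℕ) (y z w : V), r + 1 ≤ R → G.edist x y = r → G.edist x z = r →
    G.edist x w = (r + 1 : ℕ) → G.Adj y w → G.Adj z w → y = z

/-- The points at distance at most `R` from `x` have degree at most `T` and lie on no cycle of length at most `C`. -/
def Loc {V : Type} (G : SimpleGraph V) (T C R : ℕ) (x : V) : Prop :=
  ∀ y, G.edist x y ≤ R → (G.neighborSet y).ncard ≤ T ∧ ∀ w : G.Walk y y, w.IsCycle → C < w.length

/-- `e` is an isomorphism of the ball of radius `R` around `x` onto the one around `x'`. -/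
structure BallIso {Λ V V' : Type} (E : LG Λ V) (E' : LG Λ V') (R : ℕ) (x : V) (x' : V') (e : V → V') :
    Prop where
  root : e x = x'
  dist : ∀ y, E.G.edist x y ≤ R → E'.G.edist x' (e y) = E.G.edist x y
  inj : ∀ y z, E.G.edist x y ≤ R → E.G.edist x z ≤ R → e y = e z → y = z
  surj : ∀ y', E'.G.edist x' y' ≤ R → ∃ y, E.G.edist x y ≤ R ∧ e y = y'
  adj : ∀ y z, E.G.edist x y ≤ R → E.G.edist x z ≤ R → (E.G.Adj y z ↔ E'.G.Adj (e y) (e z))
  lab : ∀ y z, E.G.edist x y ≤ R → E.G.edist x z ≤ R → (y = z ∨ E.G.Adj y z) →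
    E.el y z = E'.el (e y) (e z)

/-- The isomorphism constructed up to distance `r`: the classes of the branches at the points of level `s + 1 ≤ r`
agree up to level `R - (s + 1)`. -/
structure Part {Λ V V' : Type} (E : LG Λ V) (E' : LG Λ V') (T R : ℕ) (x : V) (x' : V') (r : ℕ)
    (e : V → V') : Prop extends BallIso E E' r x x' e where
  cls : ∀ (s : ℕ) (y z : V), s + 1 ≤ r → E.G.edist x y = s → E.G.edist x z = (s + 1 : ℕ) →
    E.G.Adj y z → br E T (R - (s + 1)) y z = br E' T (R - (s + 1)) (e y) (e z)

/-- The distance capped at `B`. -/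
noncomputable def dm {V : Type} (B : ℕ) (G : SimpleGraph V) (x y : V) : ℕ :=
  (min (G.edist x y) (B : ℕ∞)).toNat

/-! ### Dart systems and their covering graphs -/

/-- A dart system: darts with sources, reversal `ι`, and elements `g` of a group. -/
structure DS (V0 D H : Type) [Group H] where
  src : D → V0
  ι : D → D
  g : D → H
  ι_ι : ∀ e, ι (ι e) = e
  ι_ne : ∀ e, ι e ≠ e
  g_ι : ∀ e, g (ι e) = (g e)⁻¹

/-- No reduced word of length between `1` and `ℓ` has the product `1`. -/
def NoRel {D H : Type} [Group H] (ι : D → D) (g : D → H) (ℓ : ℕ) : Prop :=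
  ∀ w : List D, w ≠ [] → w.length ≤ ℓ → w.IsChain (fun a b => b ≠ ι a) → (w.map g).prod ≠ 1

/-- The covering graph of a dart system. -/
def cov {V0 D H : Type} [Group H] (S : DS V0 D H) : SimpleGraph (V0 × H) where
  Adj x y := x ≠ y ∧ ∃ e, S.src e = x.1 ∧ S.src (S.ι e) = y.1 ∧ y.2 = x.2 * S.g e
  symm := ⟨by
    rintro x y ⟨h, e, h1, h2, h3⟩
    refine ⟨h.symm, S.ι e, h2, ?_, ?_⟩
    · rw [S.ι_ι, h1]
    · rw [h3, S.g_ι]
      simp⟩
  loopless := ⟨fun _ h => h.1 rfl⟩

open Classical in
/-- The covering graph with labels `lv` of the points and `le` of the darts. -/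
noncomputable def covLG {Λ V0 D H : Type} [Group H] (S : DS V0 D H) (lv : V0 → Λ) (le : D → Λ) :
    LG Λ (V0 × H) where
  G := cov S
  el x y := if x = y then lv x.1 else
    if h : ∃ e, S.src e = x.1 ∧ S.src (S.ι e) = y.1 ∧ y.2 = x.2 * S.g e then le h.choose else lv x.1

/-! ### Relational structures -/

/-- Labels: atomic types of pairs. -/
abbrev Q (L : FirstOrder.Language.{0, 0}) : Type :=
  (s : Σ n, L.Relations n) → (Fin s.1 → Bool) → Prop

/-- The labelled graph of a structure. -/
def lgA (L : FirstOrder.Language.{0, 0}) (A : Type) [L.Structure A] : LG (Q L) A where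
  G := gaifman L A
  el y z := fun s f => Structure.RelMap s.2 (fun i => if f i then z else y)

/-- The relations described by the labels of a graph. -/
def relLG {L : FirstOrder.Language.{0, 0}} {K : Type} (E : LG (Q L) K) (n : ℕ) (R : L.Relations n)
    (u : Fin n → K) : Prop :=
  ∃ (k k' : K) (f : Fin n → Bool), (k = k' ∨ E.G.Adj k k') ∧ (∀ i, u i = if f i then k' else k) ∧
    E.el k k' ⟨n, R⟩ f

/-- A structure as a `Str`. -/
def strA (L : FirstOrder.Language.{0, 0}) (A : Type) [L.Structure A] : Str L A where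
  D := fun _ => True
  rel := fun _ R v => Structure.RelMap R v

/-- The disjoint sum of a structure and the structure described by a labelled graph. -/
def strS (L : FirstOrder.Language.{0, 0}) (A : Type) [L.Structure A] {K : Type} (E : LG (Q L) K) :
    Str L (A ⊕ K) where
  D := fun _ => True
  rel := fun n R v => (∃ w : Fin n → A, v = (fun i => Sum.inl (w i)) ∧ Structure.RelMap R w) ∨
    ∃ u : Fin n → K, v = (fun i => Sum.inr (u i)) ∧ relLG E n R u

/-- The distance on the sum, capped at `B`. -/
noncomputable def dS {A K : Type} (B : ℕ) (G : SimpleGraph A) (G' : SimpleGraph K) :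
    A ⊕ K → A ⊕ K → ℕ
  | Sum.inl a, Sum.inl b => dm B G a b
  | Sum.inr a, Sum.inr b => dm B G' a b
  | _, _ => B

/-- The labels know the truth values of the nullary relations. -/
def Null {L : FirstOrder.Language.{0, 0}} (A : Type) [L.Structure A] {K : Type} (E : LG (Q L) K) :
    Prop :=
  ∀ (R : L.Relations 0) (k k' : K) (f : Fin 0 → Bool), (k = k' ∨ E.G.Adj k k') →
    (E.el k k' ⟨0, R⟩ f ↔ Structure.RelMap R (default : Fin 0 → A))

/-! ### The condition -/

/-- `X` is large compared with the number of its points that have neighbours outside `X`, and the points at distance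
at most `C` from `X` have degree at most `d` and lie on no cycle of length at most `C`. -/
def TreePart {V : Type} (G : SimpleGraph V) (d C : ℕ) (X : Set V) : Prop :=
  C * ({x | x ∈ X ∧ ∃ z, z ∉ X ∧ G.Adj x z}.ncard + 1) ≤ X.ncard ∧
    ∀ x ∈ X, ∀ y, G.edist x y ≤ C → (G.neighborSet y).ncard ≤ d ∧
      ∀ w : G.Walk y y, w.IsCycle → C < w.length

end Pool.Agent.Helper37.GH
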