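import Mathlib
import Pool.Agent.Helper37.GH.Defs

/-!
# GH-1: classes
-/

set_option autoImplicit false

namespace Pool.Agent.Helper37.GH

theorem finite_Cl (Λ : Type) [Finite Λ] (T i : ℕ) : Finite (Cl Λ T i) := by
  induction i with
  | zero => exact (inferInstance : Finite Λ)
  | succ i ih =>
    have : Finite (Cl Λ T i) := ih
    exact (inferInstance : Finite (Λ × (Cl Λ T i → Fin (T + 1))))

theorem cap_eq {V : Type} {T : ℕ} {s : Set V} (h : s.ncard ≤ T) : (cap T s : ℕ) = s.ncard := by
  simp only [cap]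
  exact min_eq_right h

theorem br_lab {Λ V V' : Type} {E : LG Λ V} {E' : LG Λ V'} {T i : ℕ} {u v : V} {u' v' : V'}
    (hb : br E T i u v = br E' T i u' v') : E.el u v = E'.el u' v' := by
  cases i with
  | zero => exact hb
  | succ i => exact congrArg Prod.fst hb

/-- capped sums are determined by the capped terms -/
theorem min_sum {Γ : Type} (T : ℕ) (C : Finset Γ) (n n' : Γ → ℕ)
    (h : ∀ c ∈ C, min T (n c) = min T (n' c)) : min T (∑ c ∈ C, n c) = min T (∑ c ∈ C, n' c) := by
  classical
  induction C using Finset.induction_on with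
  | empty => simp
  | insert a s ha ih =>
    rw [Finset.sum_insert ha, Finset.sum_insert ha]
    have h1 := h a (Finset.mem_insert_self _ _)
    have h2 := ih (fun c hc => h c (Finset.mem_insert_of_mem hc))
    omega

/-- capped counts are additive over the values of a map -/
theorem min_ncard {V V' Γ : Type} [Finite V] [Finite V'] [Finite Γ] (T : ℕ) (P : V → Prop)
    (P' : V' → Prop) (φ : V → Γ) (φ' : V' → Γ) (S : Set Γ)
    (h : ∀ c, min T {w | P w ∧ φ w = c}.ncard = min T {w | P' w ∧ φ' w = c}.ncard) :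
    min T {w | P w ∧ φ w ∈ S}.ncard = min T {w | P' w ∧ φ' w ∈ S}.ncard := by
  classical
  have key : ∀ (W : Type) [Finite W] (R : W → Prop) (ψ : W → Γ),
      {w | R w ∧ ψ w ∈ S}.ncard = ∑ c ∈ S.toFinite.toFinset, {w | R w ∧ ψ w = c}.ncard := by
    intro W _ R ψ
    have : Fintype W := Fintype.ofFinite W
    rw [Set.ncard_eq_toFinset_card' {w | R w ∧ ψ w ∈ S}]
    rw [Finset.card_eq_sum_card_fiberwise (f := ψ) (t := S.toFinite.toFinset)]
    · refine Finset.sum_congr rfl fun c hc => ?_
      rw [Set.ncard_eq_toFinset_card' {w | R w ∧ ψ w = c}]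
      congr 1
      ext w
      have hcS : c ∈ S := by simpa using hc
      simp only [Finset.mem_filter, Set.mem_toFinset, Set.mem_setOf_eq]
      constructor
      · rintro ⟨⟨h1, -⟩, h2⟩
        exact ⟨h1, h2⟩
      · rintro ⟨h1, h2⟩
        exact ⟨⟨h1, h2 ▸ hcS⟩, h2⟩
    · intro w hw
      have hw' : R w ∧ ψ w ∈ S := by simpa using hw
      simpa using hw'.2
  rw [key V P φ, key V' P' φ']
  exact min_sum T _ _ _ fun c _ => h c

/-- one step of `br_mono` -/
theorem br_step {Λ : Type} [Finite Λ] {T : ℕ} (i : ℕ) : ∀ {V V' : Type} [Finite V] [Finite V']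
    {E : LG Λ V} {E' : LG Λ V'} {u v : V} {u' v' : V'},
    br E T (i + 1) u v = br E' T (i + 1) u' v' → br E T i u v = br E' T i u' v' := by
  induction i with
  | zero =>
    intro V V' _ _ E E' u v u' v' hb
    exact br_lab (i := 1) hb
  | succ i ih =>
    intro V V' _ _ E E' u v u' v' hb
    have : Finite (Cl Λ T (i + 1)) := finite_Cl Λ T (i + 1)
    have hlab : E.el u v = E'.el u' v' := br_lab hb
    have hcnt : ∀ c : Cl Λ T (i + 1),
        min T {w | (E.G.Adj v w ∧ w ≠ u) ∧ br E T (i + 1) v w = c}.ncard =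
          min T {w | (E'.G.Adj v' w ∧ w ≠ u') ∧ br E' T (i + 1) v' w = c}.ncard := by
      intro c
      have h1 := congrArg (fun x : Cl Λ T (i + 2) => ((x.2 c : Fin (T + 1)) : ℕ)) hb
      have h2 : ((cap T {w | E.G.Adj v w ∧ w ≠ u ∧ br E T (i + 1) v w = c} : Fin (T + 1)) : ℕ) =
        ((cap T {w | E'.G.Adj v' w ∧ w ≠ u' ∧ br E' T (i + 1) v' w = c} : Fin (T + 1)) : ℕ) := h1
      simp only [cap] at h2
      simpa only [and_assoc] using h2
    have main : (fun c : Cl Λ T i => cap T {w | E.G.Adj v w ∧ w ≠ u ∧ br E T i v w = c}) =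
        fun c => cap T {w | E'.G.Adj v' w ∧ w ≠ u' ∧ br E' T i v' w = c} := by
      funext c
      let S : Set (Cl Λ T (i + 1)) := {cb | (∃ w, br E T (i + 1) v w = cb ∧ br E T i v w = c) ∨
        ∃ w, br E' T (i + 1) v' w = cb ∧ br E' T i v' w = c}
      have h1 : ∀ w, br E T i v w = c ↔ br E T (i + 1) v w ∈ S := by
        intro w
        constructor
        · intro h
          exact Or.inl ⟨w, rfl, h⟩
        · rintro (⟨w', hw, h⟩ | ⟨w', hw, h⟩)
          · rw [← h]
            exact ih hw.symm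
          · rw [← h]
            exact ih hw.symm
      have h2 : ∀ w, br E' T i v' w = c ↔ br E' T (i + 1) v' w ∈ S := by
        intro w
        constructor
        · intro h
          exact Or.inr ⟨w, rfl, h⟩
        · rintro (⟨w', hw, h⟩ | ⟨w', hw, h⟩)
          · rw [← h]
            exact ih hw.symm
          · rw [← h]
            exact ih hw.symm
      have h3 := min_ncard T (fun w => E.G.Adj v w ∧ w ≠ u) (fun w => E'.G.Adj v' w ∧ w ≠ u')
        (fun w => br E T (i + 1) v w) (fun w => br E' T (i + 1) v' w) S hcnt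
      apply Fin.ext
      simp only [cap]
      simp only [h1, h2]
      simpa only [and_assoc] using h3
    have hgoal : ((E.el u v, fun c : Cl Λ T i => cap T {w | E.G.Adj v w ∧ w ≠ u ∧
        br E T i v w = c}) : Λ × (Cl Λ T i → Fin (T + 1))) =
        (E'.el u' v', fun c => cap T {w | E'.G.Adj v' w ∧ w ≠ u' ∧ br E' T i v' w = c}) := by
      rw [hlab, main]
    exact hgoal

/-- The class of level `i + 1` determines the class of level `i`: capped counts of a class of level `i` are the
capped sums of the capped counts of the classes of level `i + 1` above it. -/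
theorem br_mono {Λ V V' : Type} [Finite Λ] [Finite V] [Finite V'] {E : LG Λ V} {E' : LG Λ V'}
    {T i j : ℕ} (h : j ≤ i) {u v : V} {u' v' : V'} (hb : br E T i u v = br E' T i u' v') :
    br E T j u v = br E' T j u' v' := by
  induction i, h using Nat.le_induction with
  | base => exact hb
  | succ i _ ih => exact ih (br_step i hb)

/-- Equal numbers of points of each colour: there is a bijection that respects the colours. -/
theorem exists_bijOn {V V' Γ : Type} [Nonempty V'] {S : Set V} {S' : Set V'} (hS : S.Finite)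
    (hS' : S'.Finite) (c : V → Γ) (c' : V' → Γ)
    (h : ∀ γ, {z | z ∈ S ∧ c z = γ}.ncard = {z | z ∈ S' ∧ c' z = γ}.ncard) :
    ∃ f : V → V', Set.BijOn f S S' ∧ ∀ z ∈ S, c z = c' (f z) := by
  classical
  have hb : ∀ γ, ∃ f : V → V', Set.BijOn f {z | z ∈ S ∧ c z = γ} {z | z ∈ S' ∧ c' z = γ} := by
    intro γ
    have h1 : {z | z ∈ S ∧ c z = γ}.Finite := hS.subset fun z hz => hz.1
    have h2 : {z | z ∈ S' ∧ c' z = γ}.Finite := hS'.subset fun z hz => hz.1
    refine h1.exists_bijOn_of_encard_eq ?_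
    rw [← h1.cast_ncard_eq, ← h2.cast_ncard_eq, h γ]
  choose f hf using hb
  have hm : ∀ z ∈ S, f (c z) z ∈ S' ∧ c' (f (c z) z) = c z := fun z hz =>
    (hf (c z)).mapsTo ⟨hz, rfl⟩
  refine ⟨fun z => f (c z) z, ⟨fun z hz => (hm z hz).1, ?_, ?_⟩, fun z hz => (hm z hz).2.symm⟩
  · intro z hz w hw hzw
    have hzw' : f (c z) z = f (c w) w := hzw
    have hc : c z = c w := by
      rw [← (hm z hz).2, ← (hm w hw).2, hzw']
    rw [← hc] at hzw'
    exact (hf (c z)).injOn ⟨hz, rfl⟩ ⟨hw, hc.symm⟩ hzw'
  · intro z' hz'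
    obtain ⟨z, hz, hzz⟩ := (hf (c' z')).surjOn ⟨hz', rfl⟩
    refine ⟨z, hz.1, ?_⟩
    change f (c z) z = z'
    rw [hz.2]
    exact hzz

end Pool.Agent.Helper37.GH
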