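import Mathlib
import Pool.Agent.Helper37.GH.Cls

/-!
# GH-3: children of a point of the ball
-/

set_option autoImplicit false

namespace Pool.Agent.Helper37.GH

/-- The neighbours of `y` at distance `r + 1` from `x`. -/
def ch {V : Type} (G : SimpleGraph V) (x : V) (r : ℕ) (y : V) : Set V :=
  {z | G.Adj y z ∧ G.edist x z = (r + 1 : ℕ)}

private theorem chd_parent {V : Type} {G : SimpleGraph V} {x y : V} {s : ℕ}
    (hy : G.edist x y = (s + 1 : ℕ)) : ∃ p, G.Adj p y ∧ G.edist x p = s := by
  rw [SimpleGraph.edist_comm] at hy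
  obtain ⟨w, hw⟩ := SimpleGraph.exists_walk_of_edist_eq_coe hy
  cases w with
  | nil => simp at hw
  | cons h q =>
    rename_i v
    refine ⟨v, h.symm, ?_⟩
    rw [SimpleGraph.Walk.length_cons] at hw
    have h1 : G.edist v x ≤ (s : ℕ∞) := by
      refine le_trans (SimpleGraph.edist_le q) ?_
      have : q.length = s := by omega
      rw [this]
    have hne : G.edist v x ≠ ⊤ := ne_top_of_le_ne_top (ENat.natCast_ne_top s) h1
    obtain ⟨n, hn⟩ := ENat.ne_top_iff_exists.1 hne
    have h2 := SimpleGraph.edist_triangle (G := G) (u := y) (v := v) (w := x)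
    rw [hy, SimpleGraph.edist_eq_one_iff_adj.2 h, ← hn] at h2
    rw [← hn] at h1
    rw [SimpleGraph.edist_comm, ← hn]
    have h3 : n ≤ s := by exact_mod_cast h1
    have h4 : s + 1 ≤ 1 + n := by exact_mod_cast h2
    have h5 : n = s := by omega
    rw [h5]

private theorem chd_adj {V : Type} {G : SimpleGraph V} {x y z : V} {r : ℕ}
    (hy : G.edist x y = (r + 1 : ℕ)) (h : G.Adj y z) :
    G.edist x z = (r : ℕ) ∨ G.edist x z = (r + 1 : ℕ) ∨ G.edist x z = (r + 1 + 1 : ℕ) := by
  have h1 := SimpleGraph.edist_triangle (G := G) (u := x) (v := y) (w := z)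
  have h2 := SimpleGraph.edist_triangle (G := G) (u := x) (v := z) (w := y)
  rw [hy, SimpleGraph.edist_eq_one_iff_adj.2 h] at h1
  rw [hy, SimpleGraph.edist_eq_one_iff_adj.2 h.symm] at h2
  have hne : G.edist x z ≠ ⊤ := by
    refine ne_top_of_le_ne_top ?_ h1
    exact ENat.natCast_ne_top (r + 1 + 1)
  obtain ⟨n, hn⟩ := ENat.ne_top_iff_exists.1 hne
  rw [← hn] at h1 h2 ⊢
  have h3 : n ≤ r + 1 + 1 := by exact_mod_cast h1
  have h4 : r + 1 ≤ n + 1 := by exact_mod_cast h2
  have h5 : n = r ∨ n = r + 1 ∨ n = r + 1 + 1 := by omega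
  rcases h5 with h5 | h5 | h5
  · left; rw [h5]
  · right; left; rw [h5]
  · right; right; rw [h5]

private theorem chd_ch {V : Type} {G : SimpleGraph V} {T R : ℕ} {x : V} (h : Lev G T R x)
    {s : ℕ} (hs : s + 1 + 1 ≤ R) {p y : V} (hp : G.edist x p = s)
    (hy : G.edist x y = (s + 1 : ℕ)) (hpy : G.Adj p y) (z : V) :
    z ∈ ch G x (s + 1) y ↔ G.Adj y z ∧ z ≠ p := by
  constructor
  · rintro ⟨h1, h2⟩
    refine ⟨h1, ?_⟩
    rintro rfl
    rw [hp] at h2
    have : s = s + 1 + 1 := by exact_mod_cast h2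
    omega
  · rintro ⟨h1, h2⟩
    refine ⟨h1, ?_⟩
    rcases chd_adj hy h1 with h3 | h3 | h3
    · exact absurd (h.uniq s z p y (by omega) h3 hp hy h1.symm hpy) h2
    · exact absurd h1 (h.flat (s + 1) y z (by omega) hy h3)
    · exact h3

private theorem chd_count {V : Type} [Finite V] {G : SimpleGraph V} {T R : ℕ} {x : V}
    (h : Lev G T R x) {r : ℕ} (hr : r ≤ R) {y : V} (hy : G.edist x y = r) {S : Set V}
    (hS : ∀ z ∈ S, G.Adj y z) : S.ncard ≤ T := by
  refine le_trans (Set.ncard_le_ncard (t := G.neighborSet y) ?_ (Set.toFinite _)) (h.deg y ?_)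
  · intro z hz
    exact hS z hz
  · rw [hy]
    exact_mod_cast hr

/-- For `r = 0` (`y = x`) use `hr` and `br_mono`; for `r ≥ 1` let `p` be the neighbour of `y` at distance `r - 1`: by
`Lev.flat` and `Lev.uniq` the children are the neighbours different from `p`, the same for `e y` and `e p`, and
`he.cls (r - 1) p y` gives equal numbers of children of each class of level `R - (r + 1)` (all numbers are at most `T`). -/
theorem children {Λ V V' : Type} [Finite Λ] [Finite V] [Finite V'] {E : LG Λ V} {E' : LG Λ V'}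
    {T R : ℕ} {x : V} {x' : V'} (h : Lev E.G T R x) (h' : Lev E'.G T R x')
    (hr : rt E T R x = rt E' T R x') {r : ℕ} (hrR : r + 1 ≤ R) {e : V → V'}
    (he : Part E E' T R x x' r e) {y : V} (hy : E.G.edist x y = r) :
    ∃ f : V → V', Set.BijOn f (ch E.G x r y) (ch E'.G x' r (e y)) ∧
      ∀ z ∈ ch E.G x r y, br E T (R - (r + 1)) y z = br E' T (R - (r + 1)) (e y) (f z) := by
  have : Nonempty V' := ⟨x'⟩
  have hy' : E'.G.edist x' (e y) = r := by
    rw [he.dist y (by rw [hy]), hy]
  cases r with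
  | zero =>
    have hyx : y = x := by
      have : E.G.edist x y = 0 := by rw [hy]; rfl
      exact (SimpleGraph.edist_eq_zero_iff.1 this).symm
    subst hyx
    rw [he.root]
    have hr2 := congrArg Prod.snd hr
    have hch : ∀ z, z ∈ ch E.G y 0 y ↔ E.G.Adj y z := by
      intro z
      refine ⟨fun hz => hz.1, fun hz => ⟨hz, ?_⟩⟩
      rw [SimpleGraph.edist_eq_one_iff_adj.2 hz]
      rfl
    have hch' : ∀ z, z ∈ ch E'.G x' 0 x' ↔ E'.G.Adj x' z := by
      intro z
      refine ⟨fun hz => hz.1, fun hz => ⟨hz, ?_⟩⟩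
      rw [SimpleGraph.edist_eq_one_iff_adj.2 hz]
      rfl
    rw [he.root] at hy'
    obtain ⟨f, hf, hc⟩ := exists_bijOn (S := ch E.G y 0 y) (S' := ch E'.G x' 0 x')
      (Set.toFinite _) (Set.toFinite _) (fun z => (br E T R y z, br E T R z y))
      (fun z => (br E' T R x' z, br E' T R z x')) (by
        intro γ
        have e1 : {z | z ∈ ch E.G y 0 y ∧ (br E T R y z, br E T R z y) = γ} =
            {z | E.G.Adj y z ∧ br E T R y z = γ.1 ∧ br E T R z y = γ.2} := by
          ext z
          constructor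
          · rintro ⟨h1, h2⟩
            refine ⟨(hch z).1 h1, ?_, ?_⟩
            · rw [← h2]
            · rw [← h2]
          · rintro ⟨h1, h2, h3⟩
            exact ⟨(hch z).2 h1, Prod.ext h2 h3⟩
        have e2 : {z | z ∈ ch E'.G x' 0 x' ∧ (br E' T R x' z, br E' T R z x') = γ} =
            {z | E'.G.Adj x' z ∧ br E' T R x' z = γ.1 ∧ br E' T R z x' = γ.2} := by
          ext z
          constructor
          · rintro ⟨h1, h2⟩
            refine ⟨(hch' z).1 h1, ?_, ?_⟩
            · rw [← h2]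
            · rw [← h2]
          · rintro ⟨h1, h2, h3⟩
            exact ⟨(hch' z).2 h1, Prod.ext h2 h3⟩
        rw [e1, e2]
        have h3 := congrFun hr2 γ
        have h4 := congrArg (fun n : Fin (T + 1) => (n : ℕ)) h3
        have l1 := cap_eq (T := T) (chd_count h (Nat.zero_le R) hy
          (S := {z | E.G.Adj y z ∧ br E T R y z = γ.1 ∧ br E T R z y = γ.2})
          (fun z hz => hz.1))
        have l2 := cap_eq (T := T) (chd_count h' (Nat.zero_le R) hy'
          (S := {z | E'.G.Adj x' z ∧ br E' T R x' z = γ.1 ∧ br E' T R z x' = γ.2})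
          (fun z hz => hz.1))
        rw [← l1, ← l2]
        exact h4)
    refine ⟨f, hf, fun z hz => ?_⟩
    have h5 := congrArg Prod.fst (hc z hz)
    exact br_mono (Nat.sub_le _ _) h5
  | succ s =>
    obtain ⟨p, hpy, hp⟩ := chd_parent hy
    have hle : E.G.edist x p ≤ (s + 1 : ℕ) := by
      rw [hp]; exact_mod_cast Nat.le_succ s
    have hp' : E'.G.edist x' (e p) = s := by rw [he.dist p hle, hp]
    have hpy' : E'.G.Adj (e p) (e y) := (he.adj p y hle (by rw [hy])).1 hpy
    have hcls := he.cls s p y le_rfl hp hy hpy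
    obtain ⟨i, hi⟩ : ∃ i, R = i + (s + 1 + 1) := ⟨R - (s + 1 + 1), by omega⟩
    have hi1 : R - (s + 1) = i + 1 := by omega
    have hi0 : R - (s + 1 + 1) = i := by omega
    rw [hi1] at hcls
    rw [hi0]
    have hcl2 := congrArg Prod.snd hcls
    obtain ⟨f, hf, hc⟩ := exists_bijOn (S := ch E.G x (s + 1) y) (S' := ch E'.G x' (s + 1) (e y))
      (Set.toFinite _) (Set.toFinite _) (fun z => br E T i y z)
      (fun z => br E' T i (e y) z) (by
        intro γ
        have e1 : {z | z ∈ ch E.G x (s + 1) y ∧ br E T i y z = γ} =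
            {z | E.G.Adj y z ∧ z ≠ p ∧ br E T i y z = γ} := by
          ext z
          constructor
          · rintro ⟨h1, h2⟩
            have h3 := (chd_ch h (by omega) hp hy hpy z).1 h1
            exact ⟨h3.1, h3.2, h2⟩
          · rintro ⟨h1, h2, h3⟩
            exact ⟨(chd_ch h (by omega) hp hy hpy z).2 ⟨h1, h2⟩, h3⟩
        have e2 : {z | z ∈ ch E'.G x' (s + 1) (e y) ∧ br E' T i (e y) z = γ} =
            {z | E'.G.Adj (e y) z ∧ z ≠ e p ∧ br E' T i (e y) z = γ} := by
          ext z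
          constructor
          · rintro ⟨h1, h2⟩
            have h3 := (chd_ch h' (by omega) hp' hy' hpy' z).1 h1
            exact ⟨h3.1, h3.2, h2⟩
          · rintro ⟨h1, h2, h3⟩
            exact ⟨(chd_ch h' (by omega) hp' hy' hpy' z).2 ⟨h1, h2⟩, h3⟩
        rw [e1, e2]
        have h3 := congrFun hcl2 γ
        have h4 := congrArg (fun n : Fin (T + 1) => (n : ℕ)) h3
        have l1 := cap_eq (T := T) (chd_count h (by omega : s + 1 ≤ R) hy
          (S := {z | E.G.Adj y z ∧ z ≠ p ∧ br E T i y z = γ}) (fun z hz => hz.1))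
        have l2 := cap_eq (T := T) (chd_count h' (by omega : s + 1 ≤ R) hy'
          (S := {z | E'.G.Adj (e y) z ∧ z ≠ e p ∧ br E' T i (e y) z = γ}) (fun z hz => hz.1))
        rw [← l1, ← l2]
        exact h4)
    exact ⟨f, hf, hc⟩

end Pool.Agent.Helper37.GH
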