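import Mathlib
import Pool.Agent.Helper37.GH.Cls

/-!
# GH-12: counting darts
-/

set_option autoImplicit false

namespace Pool.Agent.Helper37.GH

open Classical in
private theorem Count_fiber {Λ A : Type} [Fintype A] (E : LG Λ A) (T R : ℕ) (X : Set A)
    [Fintype (Rt Λ T R)] (F : Rt Λ T R → ℕ) :
    ∑ γ : Rt Λ T R, {x | x ∈ X ∧ rt E T R x = γ}.ncard * F γ =
      ∑ x ∈ Finset.univ.filter (fun x => x ∈ X), F (rt E T R x) := by
  rw [← Finset.sum_fiberwise (Finset.univ.filter (fun x => x ∈ X)) (fun x => rt E T R x)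
    (fun x => F (rt E T R x))]
  apply Finset.sum_congr rfl
  intro γ _
  have h1 : {x | x ∈ X ∧ rt E T R x = γ}.ncard =
      ((Finset.univ.filter (fun x => x ∈ X)).filter (fun x => rt E T R x = γ)).card := by
    rw [← Set.ncard_coe_finset]
    congr 1
    ext x
    simp
  rw [h1, Finset.sum_congr rfl (g := fun _ => F γ), Finset.sum_const, smul_eq_mul]
  intro x hx
  rw [(Finset.mem_filter.1 hx).2]

/-- The left side is the number of the pairs `(x, z)` of adjacent points with `x ∈ X` and the classes `c`; the sum on the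
right is the number of such pairs with the classes `c.swap`, i.e. of the pairs `(x, z)` with `z ∈ X` and the classes `c`.
Pairs with `x ∈ X` and `z ∉ X`: at most `T * b`. -/
theorem balance {Λ A : Type} [Finite Λ] [Finite A] (E : LG Λ A) (T R b : ℕ) (X : Set A)
    (hdeg : ∀ x ∈ X, (E.G.neighborSet x).ncard ≤ T)
    (hb : {x | x ∈ X ∧ ∃ z, z ∉ X ∧ E.G.Adj x z}.ncard ≤ b) [Fintype (Rt Λ T R)]
    (c : Cl Λ T R × Cl Λ T R) :
    ∑ γ : Rt Λ T R, {x | x ∈ X ∧ rt E T R x = γ}.ncard * (γ.2 c : ℕ) ≤
      ∑ γ : Rt Λ T R, {x | x ∈ X ∧ rt E T R x = γ}.ncard * (γ.2 c.swap : ℕ) + T * b := by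
  classical
  cases nonempty_fintype A
  rw [Count_fiber E T R X (fun γ => (γ.2 c : ℕ)), Count_fiber E T R X (fun γ => (γ.2 c.swap : ℕ))]
  -- the relation
  let P : Cl Λ T R × Cl Λ T R → A → A → Prop := fun c x z =>
    E.G.Adj x z ∧ br E T R x z = c.1 ∧ br E T R z x = c.2
  have hP : ∀ c x z, P c x z ↔ P c.swap z x := by
    intro c x z
    simp only [P, Prod.fst_swap, Prod.snd_swap]
    constructor
    · rintro ⟨h1, h2, h3⟩
      exact ⟨h1.symm, h3, h2⟩
    · rintro ⟨h1, h2, h3⟩
      exact ⟨h1.symm, h3, h2⟩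
  have hsub : ∀ (c : Cl Λ T R × Cl Λ T R) (x : A), {z | P c x z} ⊆ E.G.neighborSet x :=
    fun c x z hz => hz.1
  have hcard : ∀ (c : Cl Λ T R × Cl Λ T R) (x : A), {z | P c x z}.ncard =
      (Finset.univ.filter (fun z => P c x z)).card := by
    intro c x
    rw [← Set.ncard_coe_finset]
    congr 1
    ext z
    simp
  have hcap : ∀ (c : Cl Λ T R × Cl Λ T R) (x : A), x ∈ X →
      ((rt E T R x).2 c : ℕ) = (Finset.univ.filter (fun z => P c x z)).card := by
    intro c x hx
    have h1 : {z | P c x z}.ncard ≤ T :=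
      (Set.ncard_le_ncard (hsub c x) (Set.toFinite _)).trans (hdeg x hx)
    rw [← hcard]
    show min T {z | P c x z}.ncard = _
    exact min_eq_right h1
  set XF := Finset.univ.filter (fun x => x ∈ X) with hXF
  have hmem : ∀ x, x ∈ XF ↔ x ∈ X := fun x => by rw [hXF, Finset.mem_filter]; simp
  have e1 : ∑ x ∈ XF, ((rt E T R x).2 c : ℕ) =
      ∑ x ∈ XF, (Finset.univ.filter (fun z => P c x z)).card :=
    Finset.sum_congr rfl fun x hx => hcap c x ((hmem x).1 hx)
  have e2 : ∑ x ∈ XF, ((rt E T R x).2 c.swap : ℕ) =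
      ∑ x ∈ XF, (Finset.univ.filter (fun z => P c.swap x z)).card :=
    Finset.sum_congr rfl fun x hx => hcap c.swap x ((hmem x).1 hx)
  rw [e1, e2]
  -- split according to `z ∈ X`
  have e3 : ∀ x, (Finset.univ.filter (fun z => P c x z)).card =
      (XF.filter (fun z => P c x z)).card + (Finset.univ.filter (fun z => z ∉ X ∧ P c x z)).card := by
    intro x
    rw [← Finset.card_union_of_disjoint]
    · congr 1
      ext z
      simp only [Finset.mem_filter, Finset.mem_univ, true_and, Finset.mem_union, hmem]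
      tauto
    · rw [Finset.disjoint_left]
      intro z hz hz'
      exact (Finset.mem_filter.1 hz').2.1 ((hmem z).1 (Finset.mem_filter.1 hz).1)
  have e4 : ∑ x ∈ XF, (Finset.univ.filter (fun z => P c x z)).card =
      ∑ x ∈ XF, (XF.filter (fun z => P c x z)).card +
        ∑ x ∈ XF, (Finset.univ.filter (fun z => z ∉ X ∧ P c x z)).card := by
    rw [← Finset.sum_add_distrib]
    exact Finset.sum_congr rfl fun x _ => e3 x
  rw [e4]
  apply add_le_add
  · -- swap
    have e5 : ∑ x ∈ XF, (XF.filter (fun z => P c x z)).card =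
        ∑ z ∈ XF, (XF.filter (fun x => P c x z)).card := by
      simp only [Finset.card_filter]
      exact Finset.sum_comm
    rw [e5]
    apply Finset.sum_le_sum
    intro z _
    apply Finset.card_le_card
    intro x hx
    rw [Finset.mem_filter] at hx ⊢
    exact ⟨Finset.mem_univ x, (hP c x z).1 hx.2⟩
  · -- boundary
    have e6 : ∑ x ∈ XF, (Finset.univ.filter (fun z => z ∉ X ∧ P c x z)).card ≤
        ∑ x ∈ XF.filter (fun x => ∃ z, z ∉ X ∧ E.G.Adj x z), T := by
      rw [Finset.sum_filter (s := XF)]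
      apply Finset.sum_le_sum
      intro x hx
      have hxX := (hmem x).1 hx
      split_ifs with h
      · calc (Finset.univ.filter (fun z => z ∉ X ∧ P c x z)).card
            ≤ (Finset.univ.filter (fun z => P c x z)).card := by
              apply Finset.card_le_card
              intro z hz
              rw [Finset.mem_filter] at hz ⊢
              exact ⟨hz.1, hz.2.2⟩
          _ = {z | P c x z}.ncard := (hcard c x).symm
          _ ≤ (E.G.neighborSet x).ncard := Set.ncard_le_ncard (hsub c x) (Set.toFinite _)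
          _ ≤ T := hdeg x hxX
      · rw [Nat.le_zero, Finset.card_eq_zero, Finset.filter_eq_empty_iff]
        intro z _ hz
        exact h ⟨z, hz.1, hz.2.1⟩
    refine e6.trans ?_
    rw [Finset.sum_const, smul_eq_mul, mul_comm]
    apply Nat.mul_le_mul_left
    refine le_trans (le_of_eq ?_) hb
    rw [← Set.ncard_coe_finset]
    congr 1
    ext x
    simp [hmem]

theorem sum_classes {Λ A : Type} [Finite Λ] [Finite A] (E : LG Λ A) (T R : ℕ) (X : Set A)
    [Fintype (Rt Λ T R)] :
    ∑ γ : Rt Λ T R, {x | x ∈ X ∧ rt E T R x = γ}.ncard = X.ncard := by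
  classical
  cases nonempty_fintype A
  have h := Count_fiber E T R X (fun _ => 1)
  simp only [mul_one] at h
  rw [h, Finset.sum_const, smul_eq_mul, mul_one, ← Set.ncard_coe_finset]
  congr 1
  ext x
  simp

end Pool.Agent.Helper37.GH
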