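import Mathlib
import Pool.Agent.Helper37.GH.Defs

/-!
# GH-8: the covering graph of a dart system
-/

set_option autoImplicit false

namespace Pool.Agent.Helper37.GH

variable {Λ V0 D H : Type} [Group H]

/-- `e` is a dart from `x` to `y`. -/
def IsDart (S : DS V0 D H) (e : D) (x y : V0 × H) : Prop :=
  S.src e = x.1 ∧ S.src (S.ι e) = y.1 ∧ y.2 = x.2 * S.g e

theorem isDart_symm {S : DS V0 D H} {e : D} {x y : V0 × H} (h : IsDart S e x y) :
    IsDart S (S.ι e) y x := by
  obtain ⟨h1, h2, h3⟩ := h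
  refine ⟨h2, ?_, ?_⟩
  · rw [S.ι_ι, h1]
  · rw [h3, S.g_ι]
    simp

theorem dart_uniq {S : DS V0 D H} (hN : NoRel S.ι S.g 2) {e e' : D} {x y : V0 × H}
    (h : IsDart S e x y) (h' : IsDart S e' x y) : e = e' := by
  by_contra hne
  have h3 : S.g e = S.g e' := by
    have := h.2.2.symm.trans h'.2.2
    exact mul_left_cancel this
  refine hN [S.ι e, e'] (by simp) (by simp) ?_ ?_
  · simp only [List.isChain_cons_cons, List.isChain_singleton, and_true, ne_eq]
    rw [S.ι_ι]
    exact fun hh => hne hh.symm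
  · simp [S.g_ι, h3]

theorem adj_iff {S : DS V0 D H} (hN : NoRel S.ι S.g 2) {x y : V0 × H} :
    (cov S).Adj x y ↔ ∃ e, IsDart S e x y := by
  constructor
  · rintro ⟨_, e, he⟩
    exact ⟨e, he⟩
  · rintro ⟨e, he⟩
    refine ⟨?_, e, he⟩
    rintro rfl
    have h1 : S.g e = 1 := by
      have h2 : x.2 * 1 = x.2 * S.g e := by rw [mul_one]; exact he.2.2
      exact (mul_left_cancel h2).symm
    exact hN [e] (by simp) (by simp) (by simp) (by simp [h1])

theorem el_dart {S : DS V0 D H} (hN : NoRel S.ι S.g 2) (lv : V0 → Λ) (le : D → Λ) {e : D}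
    {x y : V0 × H} (h : IsDart S e x y) : (covLG S lv le).el x y = le e := by
  have hadj : (cov S).Adj x y := (adj_iff hN).2 ⟨e, h⟩
  have hne : x ≠ y := hadj.1
  have hex : ∃ e, S.src e = x.1 ∧ S.src (S.ι e) = y.1 ∧ y.2 = x.2 * S.g e := ⟨e, h⟩
  have hc : hex.choose = e := dart_uniq hN (x := x) (y := y) hex.choose_spec h
  simp only [covLG]
  rw [if_neg hne, dif_pos hex, hc]

theorem el_self {S : DS V0 D H} (lv : V0 → Λ) (le : D → Λ) (x : V0 × H) :
    (covLG S lv le).el x x = lv x.1 := by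
  simp only [covLG, if_true]

/-- The darts at `x.1` are in bijection with the neighbours of `x`. -/
theorem bij_nbr {S : DS V0 D H} (hN : NoRel S.ι S.g 2) (x : V0 × H) :
    Set.BijOn (fun e => ((S.src (S.ι e), x.2 * S.g e) : V0 × H)) {e | S.src e = x.1}
      ((cov S).neighborSet x) := by
  have key : ∀ e, S.src e = x.1 → IsDart S e x (S.src (S.ι e), x.2 * S.g e) :=
    fun e he => ⟨he, rfl, rfl⟩
  refine ⟨?_, ?_, ?_⟩
  · intro e he
    exact (adj_iff hN).2 ⟨e, key e he⟩
  · intro e he e' he' hh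
    have h1 := key e he
    have h2 := key e' he'
    have hh' : ((S.src (S.ι e), x.2 * S.g e) : V0 × H) = (S.src (S.ι e'), x.2 * S.g e') := hh
    rw [← hh'] at h2
    exact dart_uniq hN h1 h2
  · intro y hy
    obtain ⟨e, he⟩ := (adj_iff hN).1 hy
    refine ⟨e, he.1, ?_⟩
    exact Prod.ext he.2.1 he.2.2.symm

end Pool.Agent.Helper37.GH
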