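import Mathlib
import Pool.Agent.Helper37.GH.Cls
import Pool.Agent.Helper37.GH.Cover

/-!
# GH-10: the classes of the points of the covering graph
-/

set_option autoImplicit false

namespace Pool.Agent.Helper37.GH

variable {Λ A V0 D H : Type} [Finite Λ] [Finite A] [Finite V0] [Finite D] [Group H] [Finite H]

/-- The number of neighbours of a point of the covering graph with a property, in terms of the darts. -/
private theorem ncard_cov {S : DS V0 D H} (hN : NoRel S.ι S.g 2) (E : LG Λ A) (ρ : V0 → A)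
    (ν : D → A) (h1 : ∀ v, Set.BijOn ν {e | S.src e = v} (E.G.neighborSet (ρ v)))
    (x : V0 × H) (P : V0 × H → Prop) (P' : A → Prop)
    (hP : ∀ e y, IsDart S e x y → (P y ↔ P' (ν e))) :
    {y | (cov S).Adj x y ∧ P y}.ncard = {b | E.G.Adj (ρ x.1) b ∧ P' b}.ncard := by
  have e1 : {y | (cov S).Adj x y ∧ P y} =
      (fun e => ((S.src (S.ι e), x.2 * S.g e) : V0 × H)) '' {e | S.src e = x.1 ∧ P' (ν e)} := by
    ext y
    constructor
    · rintro ⟨hy, hPy⟩
      obtain ⟨e, he⟩ := (adj_iff hN).1 hy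
      exact ⟨e, ⟨he.1, (hP e y he).1 hPy⟩, Prod.ext he.2.1 he.2.2.symm⟩
    · rintro ⟨e, ⟨he, hPe⟩, rfl⟩
      have hd : IsDart S e x (S.src (S.ι e), x.2 * S.g e) := ⟨he, rfl, rfl⟩
      exact ⟨(adj_iff hN).2 ⟨e, hd⟩, (hP e _ hd).2 hPe⟩
  have e2 : {b | E.G.Adj (ρ x.1) b ∧ P' b} = ν '' {e | S.src e = x.1 ∧ P' (ν e)} := by
    ext b
    constructor
    · rintro ⟨hb, hPb⟩
      obtain ⟨e, he, rfl⟩ := (h1 x.1).surjOn hb
      exact ⟨e, ⟨he, hPb⟩, rfl⟩
    · rintro ⟨e, ⟨he, hPe⟩, rfl⟩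
      exact ⟨(h1 x.1).mapsTo he, hPe⟩
  rw [e1, e2, Set.InjOn.ncard_image, Set.InjOn.ncard_image]
  · exact (h1 x.1).injOn.mono fun e he => he.1
  · exact (bij_nbr hN x).injOn.mono fun e he => he.1

/-- By induction on `i ≤ R`: the class of level `i` of the branch of a dart `e` in the covering graph is the class of
`(ρ (src e), ν e)` in `E`. The darts at the target of `e` different from `ι e` correspond under `ν` to the neighbours of
`ρ (src (ι e))` different from `ν (ι e)`, and by `h2` and `br_mono` these have the same classes as the neighbours of `ν e`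
different from `ρ (src e)`. -/
theorem br_cov (E : LG Λ A) (T R : ℕ) (S : DS V0 D H) (hN : NoRel S.ι S.g 2) (ρ : V0 → A)
    (ν : D → A) (h1 : ∀ v, Set.BijOn ν {e | S.src e = v} (E.G.neighborSet (ρ v)))
    (h2 : ∀ e, br E T R (ρ (S.src (S.ι e))) (ν (S.ι e)) = br E T R (ν e) (ρ (S.src e)))
    (i : ℕ) (hi : i ≤ R) (e : D) (x y : V0 × H) (h : IsDart S e x y) :
    br (covLG S (fun v => E.el (ρ v) (ρ v)) (fun e => E.el (ρ (S.src e)) (ν e))) T i x y =
      br E T i (ρ (S.src e)) (ν e) := by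
  induction i generalizing e x y with
  | zero => exact el_dart hN _ _ h
  | succ i ih =>
    have hlab := el_dart hN (fun v => E.el (ρ v) (ρ v)) (fun e => E.el (ρ (S.src e)) (ν e)) h
    have h3 := h2 (S.ι e)
    rw [S.ι_ι] at h3
    have h4 : br E T (i + 1) (ρ (S.src e)) (ν e) = br E T (i + 1) (ν (S.ι e)) (ρ y.1) := by
      rw [← h.2.1]
      exact br_mono hi h3
    have h5 : ∀ c : Cl Λ T i,
        cap T {w | E.G.Adj (ν e) w ∧ w ≠ ρ (S.src e) ∧ br E T i (ν e) w = c} =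
          cap T {w | E.G.Adj (ρ y.1) w ∧ w ≠ ν (S.ι e) ∧ br E T i (ρ y.1) w = c} := by
      intro c
      exact congrArg (fun z : Cl Λ T (i + 1) => z.2 c) h4
    refine Prod.ext hlab ?_
    funext c
    refine Eq.trans ?_ (h5 c).symm
    have h6 := ncard_cov hN E ρ ν h1 y
      (fun w => w ≠ x ∧ br (covLG S (fun v => E.el (ρ v) (ρ v))
        (fun e => E.el (ρ (S.src e)) (ν e))) T i y w = c)
      (fun b => b ≠ ν (S.ι e) ∧ br E T i (ρ y.1) b = c) ?_
    · apply Fin.ext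
      simp only [cap]
      exact congrArg (min T) h6
    · intro e' w hd
      have h7 := ih (by omega) e' y w hd
      rw [h7, hd.1]
      refine and_congr_left fun _ => not_congr ?_
      constructor
      · rintro rfl
        rw [dart_uniq hN hd (isDart_symm h)]
      · intro hν
        have h8 : e' = S.ι e := (h1 y.1).injOn hd.1 h.2.1 hν
        have h9 := isDart_symm h
        rw [← h8] at h9
        exact Prod.ext (hd.2.1.symm.trans h9.2.1) (hd.2.2.trans h9.2.2.symm)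

theorem rt_cov (E : LG Λ A) (T R : ℕ) (S : DS V0 D H) (hN : NoRel S.ι S.g 2) (ρ : V0 → A)
    (ν : D → A) (h1 : ∀ v, Set.BijOn ν {e | S.src e = v} (E.G.neighborSet (ρ v)))
    (h2 : ∀ e, br E T R (ρ (S.src (S.ι e))) (ν (S.ι e)) = br E T R (ν e) (ρ (S.src e)))
    (x : V0 × H) :
    rt (covLG S (fun v => E.el (ρ v) (ρ v)) (fun e => E.el (ρ (S.src e)) (ν e))) T R x =
      rt E T R (ρ x.1) := by
  refine Prod.ext (el_self (S := S) (fun v => E.el (ρ v) (ρ v))
    (fun e => E.el (ρ (S.src e)) (ν e)) x) ?_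
  funext c
  have h6 := ncard_cov hN E ρ ν h1 x
    (fun z => br (covLG S (fun v => E.el (ρ v) (ρ v))
        (fun e => E.el (ρ (S.src e)) (ν e))) T R x z = c.1 ∧
      br (covLG S (fun v => E.el (ρ v) (ρ v))
        (fun e => E.el (ρ (S.src e)) (ν e))) T R z x = c.2)
    (fun b => br E T R (ρ x.1) b = c.1 ∧ br E T R b (ρ x.1) = c.2) ?_
  · apply Fin.ext
    exact congrArg (min T) h6
  · intro e z hd
    rw [br_cov E T R S hN ρ ν h1 h2 R le_rfl e x z hd,
      br_cov E T R S hN ρ ν h1 h2 R le_rfl (S.ι e) z x (isDart_symm hd), h2 e, hd.1]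

theorem coh_cov (E : LG Λ A) (hE : Coh E E) (T R : ℕ) (S : DS V0 D H) (hN : NoRel S.ι S.g 2)
    (ρ : V0 → A) (ν : D → A) (h1 : ∀ v, Set.BijOn ν {e | S.src e = v} (E.G.neighborSet (ρ v)))
    (h2 : ∀ e, br E T R (ρ (S.src (S.ι e))) (ν (S.ι e)) = br E T R (ν e) (ρ (S.src e))) :
    Coh E (covLG S (fun v => E.el (ρ v) (ρ v)) (fun e => E.el (ρ (S.src e)) (ν e))) := by
  intro u v u' v' huv huv' hel
  obtain ⟨e, he⟩ := (adj_iff hN).1 huv'
  rw [el_dart hN _ _ he] at hel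
  have h3 : E.G.Adj (ρ (S.src e)) (ν e) := (h1 (S.src e)).mapsTo rfl
  have h4 : E.G.Adj (ρ (S.src (S.ι e))) (ν (S.ι e)) := (h1 (S.src (S.ι e))).mapsTo rfl
  obtain ⟨a1, a2, a3⟩ := hE _ _ _ _ huv h3 hel
  have h5 : E.el (ρ (S.src (S.ι e))) (ν (S.ι e)) = E.el (ν e) (ρ (S.src e)) := br_lab (h2 e)
  obtain ⟨b1, b2, b3⟩ := hE _ _ _ _ h4 h3.symm h5
  rw [el_dart hN _ _ (isDart_symm he), el_self, el_self, h5, ← he.1, ← he.2.1]
  exact ⟨a1, a2, a3.trans b2.symm⟩

end Pool.Agent.Helper37.GH
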