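import Pool.Agent.Helper72.SQ.Slack

/-!
# GH-6: almost balanced vectors contain balanced ones
-/

set_option autoImplicit false

namespace Pool.Agent.Helper37.GH

/-- `n` almost satisfies the homogeneous equations `∑ γ, n γ * M γ p = ∑ γ, n γ * M γ (s p)`, the error is at most `a * b`,
and `∑ γ, n γ ≥ C * (b + 1)`. With slack variables `x p ≤ a * b`, `∑ γ, n γ * M γ p + x (s p) = ∑ γ, n γ * M γ (s p) + x p`,
`(n, x)` is a sum of minimal solutions (finitely many, Dickson's lemma); at most `card P * a * b` of them have a slack,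
so one without slack occurs at least `T` times. -/
theorem exists_sol (Γ P : Type) [Fintype Γ] [Finite P] (s : P → P) (hs : ∀ p, s (s p) = p)
    (M : Γ → P → ℕ) (a : ℕ) :
    ∃ B : ℕ, ∀ T : ℕ, ∃ C : ℕ, ∀ (n : Γ → ℕ) (b : ℕ),
      (∀ p, ∑ γ, n γ * M γ p ≤ ∑ γ, n γ * M γ (s p) + a * b) → C * (b + 1) ≤ ∑ γ, n γ →
      ∃ h : Γ → ℕ, h ≠ 0 ∧ ∑ γ, h γ ≤ B ∧ (∀ p, ∑ γ, h γ * M γ p = ∑ γ, h γ * M γ (s p)) ∧
        ∀ γ, T * h γ ≤ n γ := by
  classical
  have _ := Fintype.ofFinite P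
  obtain ⟨B, hB⟩ := Helper72.SQ.exists_balanced (ι := Γ) (J := P)
    (fun p γ => (M γ p : ℤ) - (M γ (s p) : ℤ))
  refine ⟨B, fun T => ?_⟩
  set K : ℕ := ∑ γ, ∑ p, M γ p with hK
  have hKp : ∀ p, ∑ γ, M γ p ≤ K := fun p =>
    Finset.sum_le_sum fun γ _ => Finset.single_le_sum (f := fun p => M γ p)
      (fun _ _ => Nat.zero_le _) (Finset.mem_univ p)
  refine ⟨(T + 1) * (B * (a + 2 * K + 1) + Fintype.card Γ + 1), fun n b hn hC => ?_⟩
  have hT : (0 : ℤ) < (T : ℤ) + 1 := by positivity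
  set m : Γ → ℕ := fun γ => n γ / (T + 1) with hm
  have hdm : ∀ γ, (T + 1) * m γ + n γ % (T + 1) = n γ := fun γ => Nat.div_add_mod _ _
  have hr : ∀ γ, n γ % (T + 1) ≤ T + 1 := fun γ => (Nat.mod_lt _ (Nat.succ_pos T)).le
  -- the size of the quotients
  have hsum : (B * (a + 2 * K + 1) + Fintype.card Γ + 1) * (b + 1) ≤
      ∑ γ, m γ + Fintype.card Γ := by
    have h1 : ∑ γ, n γ ≤ (T + 1) * (∑ γ, m γ + Fintype.card Γ) := by
      calc ∑ γ, n γ ≤ ∑ γ, ((T + 1) * m γ + (T + 1)) :=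
            Finset.sum_le_sum fun γ _ => by have := hdm γ; have := hr γ; omega
        _ = (T + 1) * (∑ γ, m γ + Fintype.card Γ) := by
          rw [Finset.sum_add_distrib, ← Finset.mul_sum, Finset.sum_const, Finset.card_univ,
            smul_eq_mul, Nat.mul_add]
          ring
    have h2 := hC.trans h1
    rw [Nat.mul_assoc] at h2
    exact Nat.le_of_mul_le_mul_left h2 (Nat.succ_pos T)
  -- the error of the quotients
  have herr : ∀ p, |∑ γ, ((M γ p : ℤ) - (M γ (s p) : ℤ)) * (m γ : ℤ)| ≤ ((a * b + 2 * K : ℕ) : ℤ) := by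
    intro p
    set X : ℤ := ∑ γ, ((M γ p : ℤ) - (M γ (s p) : ℤ)) * (m γ : ℤ) with hX
    have hN : |∑ γ, ((M γ p : ℤ) - (M γ (s p) : ℤ)) * (n γ : ℤ)| ≤ ((a * b : ℕ) : ℤ) := by
      have e : ∑ γ, ((M γ p : ℤ) - (M γ (s p) : ℤ)) * (n γ : ℤ) =
          ((∑ γ, n γ * M γ p : ℕ) : ℤ) - ((∑ γ, n γ * M γ (s p) : ℕ) : ℤ) := by
        push_cast
        rw [← Finset.sum_sub_distrib]
        exact Finset.sum_congr rfl fun γ _ => by ring
      have h1 := hn p
      have h2 := hn (s p)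
      rw [hs p] at h2
      rw [e, abs_le]
      constructor <;> omega
    have hR : |∑ γ, ((M γ p : ℤ) - (M γ (s p) : ℤ)) * ((n γ % (T + 1) : ℕ) : ℤ)| ≤
        ((T : ℤ) + 1) * (2 * K) := by
      calc |∑ γ, ((M γ p : ℤ) - (M γ (s p) : ℤ)) * ((n γ % (T + 1) : ℕ) : ℤ)|
          ≤ ∑ γ, |((M γ p : ℤ) - (M γ (s p) : ℤ)) * ((n γ % (T + 1) : ℕ) : ℤ)| :=
            Finset.abs_sum_le_sum_abs _ _
        _ ≤ ∑ γ, ((T : ℤ) + 1) * ((M γ p : ℤ) + (M γ (s p) : ℤ)) := by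
            refine Finset.sum_le_sum fun γ _ => ?_
            rw [abs_mul, mul_comm]
            have h3 : |((n γ % (T + 1) : ℕ) : ℤ)| ≤ (T : ℤ) + 1 := by
              rw [abs_of_nonneg (by positivity)]
              exact_mod_cast hr γ
            have h4 : |(M γ p : ℤ) - (M γ (s p) : ℤ)| ≤ (M γ p : ℤ) + (M γ (s p) : ℤ) := by
              rw [abs_le]
              constructor <;> linarith [Int.natCast_nonneg (M γ p), Int.natCast_nonneg (M γ (s p))]
            exact mul_le_mul h3 h4 (abs_nonneg _) hT.le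
        _ = ((T : ℤ) + 1) * (((∑ γ, M γ p : ℕ) : ℤ) + ((∑ γ, M γ (s p) : ℕ) : ℤ)) := by
            rw [← Finset.mul_sum, Finset.sum_add_distrib]
            push_cast
            ring
        _ ≤ ((T : ℤ) + 1) * (2 * K) := by
            refine mul_le_mul_of_nonneg_left ?_ hT.le
            have h5 : ((∑ γ, M γ p : ℕ) : ℤ) ≤ K := by exact_mod_cast hKp p
            have h6 : ((∑ γ, M γ (s p) : ℕ) : ℤ) ≤ K := by exact_mod_cast hKp (s p)
            linarith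
    have e : ((T : ℤ) + 1) * X = ∑ γ, ((M γ p : ℤ) - (M γ (s p) : ℤ)) * (n γ : ℤ) -
        ∑ γ, ((M γ p : ℤ) - (M γ (s p) : ℤ)) * ((n γ % (T + 1) : ℕ) : ℤ) := by
      rw [hX, Finset.mul_sum, ← Finset.sum_sub_distrib]
      refine Finset.sum_congr rfl fun γ _ => ?_
      have h7 : (n γ : ℤ) = ((T : ℤ) + 1) * (m γ : ℤ) + ((n γ % (T + 1) : ℕ) : ℤ) := by
        exact_mod_cast (hdm γ).symm
      rw [h7]
      ring
    have h8 : |((T : ℤ) + 1) * X| ≤ ((a * b : ℕ) : ℤ) + ((T : ℤ) + 1) * (2 * K) := by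
      rw [e]
      exact (abs_sub _ _).trans (add_le_add hN hR)
    rw [abs_mul, abs_of_pos hT] at h8
    have h9 : ((T : ℤ) + 1) * |X| ≤ ((T : ℤ) + 1) * ((a * b + 2 * K : ℕ) : ℤ) := by
      push_cast at h8 ⊢
      have h10 : (0 : ℤ) ≤ (a : ℤ) * b := by positivity
      have h11 : (0 : ℤ) ≤ (T : ℤ) * ((a : ℤ) * b) := by positivity
      linarith
    exact le_of_mul_le_mul_left h9 hT
  obtain ⟨h, h1, h2, h3, h4⟩ := hB m (a * b + 2 * K) herr (by
    have e1 : B * (a * b + 2 * K + 1) ≤ B * (a + 2 * K + 1) * (b + 1) := by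
      rw [Nat.mul_assoc]
      refine Nat.mul_le_mul_left _ ?_
      nlinarith [Nat.zero_le (K * b), Nat.zero_le b, Nat.zero_le a]
    have e2 : Fintype.card Γ + 1 ≤ (Fintype.card Γ + 1) * (b + 1) :=
      Nat.le_mul_of_pos_right _ (Nat.succ_pos b)
    have e3 : (B * (a + 2 * K + 1) + Fintype.card Γ + 1) * (b + 1) =
        B * (a + 2 * K + 1) * (b + 1) + (Fintype.card Γ + 1) * (b + 1) := by ring
    omega)
  refine ⟨h, h2, h3, fun p => ?_, fun γ => ?_⟩
  · have h5 := h4 p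
    have e : ∑ γ, ((M γ p : ℤ) - (M γ (s p) : ℤ)) * (h γ : ℤ) =
        ((∑ γ, h γ * M γ p : ℕ) : ℤ) - ((∑ γ, h γ * M γ (s p) : ℕ) : ℤ) := by
      push_cast
      rw [← Finset.sum_sub_distrib]
      exact Finset.sum_congr rfl fun γ _ => by ring
    rw [e] at h5
    omega
  · have h5 := h1 γ
    have h6 := hdm γ
    calc T * h γ ≤ (T + 1) * m γ := Nat.mul_le_mul (Nat.le_succ T) h5
      _ ≤ n γ := by omega

end Pool.Agent.Helper37.GH
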