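import Mathlib
import Pool.Agent.Helper37.GH.Defs
import Pool.Agent.Helper79.TL.Enc

/-!
# GH-17: encoded structures have a large part that is locally a path
-/

set_option autoImplicit false

namespace Pool.Agent.Helper37.GH

open FirstOrder FirstOrder.Language
open Pool.Agent.Helper6.ED Pool.Agent.Helper6.ED.EncCount
open Pool.Agent.Helper79.TL (gaifman adj_U girth_U)

/-- The neighbours of a node the number of which is not divisible by `D`. -/
private lemma encTP_nb {s : Kn} {D : ℕ} {U : Type} [(LU s D).Structure U]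
    (hA : (toRw s D U).Ax) {κ : s.ι} {n : ℕ} {u w : U} (h0 : 0 < n) (hn : n < D)
    (hu : (toRw s D U).Nd κ n u) (huw : (gaifman (LU s D) U).Adj u w) :
    (toRw s D U).nx u w ∨ (toRw s D U).nx w u := by
  rcases adj_U huw with h | h | h | h
  · exact Or.inl h
  · exact Or.inr h
  · exfalso
    obtain ⟨⟨κ', i, h5⟩, -⟩ := hA.co_nd _ _ h
    obtain ⟨rfl, h6⟩ := nd_unique hA hu h5
    have h7 : D ≤ n := by
      rw [h6]
      exact Nat.le_mul_of_pos_right _ (by omega)
    omega
  · exact absurd (hA.co_nd _ _ h).2 (Pool.Agent.Helper79.TL.not_pt_nd hA hu)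

/-- The numbers of the neighbours. -/
private lemma encTP_num {s : Kn} {D : ℕ} {U : Type} [(LU s D).Structure U]
    (hA : (toRw s D U).Ax) {κ : s.ι} {n : ℕ} {u w : U} (h0 : 0 < n) (hn : n < D)
    (hu : (toRw s D U).Nd κ n u) (huw : (gaifman (LU s D) U).Adj u w) :
    ∃ k, (toRw s D U).Nd κ k w ∧ (k = n + 1 ∨ k + 1 = n) := by
  rcases encTP_nb hA h0 hn hu huw with h | h
  · exact ⟨n + 1, nx_step hA hu h, Or.inl rfl⟩
  · obtain ⟨m, rfl⟩ : ∃ m, n = m + 1 := ⟨n - 1, by omega⟩
    exact ⟨m, nx_back hA hu h, Or.inr rfl⟩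

private lemma encTP_walk {s : Kn} {D : ℕ} {U : Type} [(LU s D).Structure U]
    (hA : (toRw s D U).Ax) {κ : s.ι} {u w : U} (p : (gaifman (LU s D) U).Walk u w) :
    ∀ n : ℕ, p.length < n → n + p.length < D → (toRw s D U).Nd κ n u →
      ∃ k, (toRw s D U).Nd κ k w ∧ 0 < k ∧ k < D := by
  induction p with
  | nil =>
    intro n h1 h2 h3
    exact ⟨n, h3, by omega, by simpa using h2⟩
  | cons h p ih =>
    intro n h1 h2 h3
    rw [SimpleGraph.Walk.length_cons] at h1 h2
    obtain ⟨k, hk, hk'⟩ := encTP_num hA (by omega) (by omega) h3 h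
    exact ih k (by omega) (by omega) hk

/-- `X` = the nodes `x` with a number `j` (`A.Nd κ j x`) such that `C + 1 ≤ j % D` and `j % D + C + 1 ≤ D`. The points at
distance at most `C` from `x ∈ X` are nodes the numbers of which are not divisible by `D`, so their only neighbours are
their neighbours in the path (`adj_U`, `nx_ex`, `nx_inj`; `co_nd`: nodes joined to points have numbers divisible by `D`):
degree at most two. Cycles have length at least `D + 1` (`girth_U`). Counting: for `r < D` the number `S` of nodes with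
`j % D = r` does not depend on `r` (`nx` is a bijection from `r` to `r + 1`, or `card_Nd`), `S ≥ 1` by `cells`, `X` has
`(D - 2 * C - 1) * S ≥ 3 * C * S` points and at most `2 * S` of them (`j % D = C + 1` or `j % D + C + 1 = D`) have
neighbours outside `X`. (The proof below takes the nodes of kind `κ₀` with numbers below `D` only.) -/
theorem treePart_U {s : Kn} {D : ℕ} {U : Type} [Finite U] [(LU s D).Structure U]
    (hA : (toRw s D U).Ax) {C : ℕ} (hC : 0 < C) (hD : 6 * C ≤ D) (κ₀ : s.ι) :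
    ∃ X : Set U, TreePart (gaifman (LU s D) U) 2 C X := by
  classical
  set A := toRw s D U with hAdef
  have hDle : D ≤ D * (s.ar κ₀ + 1) := Nat.le_mul_of_pos_right _ (by omega)
  obtain ⟨S, hS⟩ : ∃ S, S = Nat.card {x : U // A.pt x} ^ s.ar κ₀ := ⟨_, rfl⟩
  have hN : ∀ j, j < D → Nat.card {x : U // A.Nd κ₀ j x} = S := by
    intro j hj
    rw [hS]
    exact card_Nd A hA (by omega) κ₀ j (by omega)
  have hS1 : 1 ≤ S := by
    obtain ⟨x, y, hx, -, -⟩ := hA.two
    have : Nonempty {x : U // A.pt x} := ⟨⟨x, hx⟩⟩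
    rw [hS]
    exact Nat.one_le_pow _ _ Nat.card_pos
  refine ⟨{x | ∃ j, A.Nd κ₀ j x ∧ C + 1 ≤ j ∧ j + C + 1 ≤ D}, ?_, ?_⟩
  · have hb : ({x | x ∈ {x | ∃ j, A.Nd κ₀ j x ∧ C + 1 ≤ j ∧ j + C + 1 ≤ D} ∧
        ∃ z, z ∉ {x | ∃ j, A.Nd κ₀ j x ∧ C + 1 ≤ j ∧ j + C + 1 ≤ D} ∧
          (gaifman (LU s D) U).Adj x z} : Set U).ncard ≤ 2 * S := by
      have hsub : ({x | x ∈ {x | ∃ j, A.Nd κ₀ j x ∧ C + 1 ≤ j ∧ j + C + 1 ≤ D} ∧
        ∃ z, z ∉ {x | ∃ j, A.Nd κ₀ j x ∧ C + 1 ≤ j ∧ j + C + 1 ≤ D} ∧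
          (gaifman (LU s D) U).Adj x z} : Set U) ⊆
          {x | A.Nd κ₀ (C + 1) x} ∪ {x | A.Nd κ₀ (D - C - 1) x} := by
        rintro x ⟨⟨j, hj, h1, h2⟩, z, hz, hxz⟩
        obtain ⟨k, hk, hk'⟩ := encTP_num hA (by omega) (by omega) hj hxz
        by_cases h3 : j = C + 1
        · left
          rw [h3] at hj
          exact hj
        by_cases h4 : j = D - C - 1
        · right
          rw [h4] at hj
          exact hj
        exfalso
        exact hz ⟨k, hk, by omega, by omega⟩
      have e1 : ({x | A.Nd κ₀ (C + 1) x} : Set U).ncard = S := hN (C + 1) (by omega)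
      have e2 : ({x | A.Nd κ₀ (D - C - 1) x} : Set U).ncard = S := hN (D - C - 1) (by omega)
      calc _ ≤ _ := Set.ncard_le_ncard hsub (Set.toFinite _)
        _ ≤ _ := Set.ncard_union_le _ _
        _ = 2 * S := by rw [e1, e2]; ring
    have hX : (D - 2 * C - 1) * S ≤
        ({x | ∃ j, A.Nd κ₀ j x ∧ C + 1 ≤ j ∧ j + C + 1 ≤ D} : Set U).ncard := by
      have h1 : Nat.card (Σ j : {j // j ∈ Finset.Icc (C + 1) (D - C - 1)},
          {x : U // A.Nd κ₀ j.1 x}) = (D - 2 * C - 1) * S := by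
        rw [Nat.card_sigma]
        have h2 : ∀ j ∈ (Finset.univ : Finset {j // j ∈ Finset.Icc (C + 1) (D - C - 1)}),
            Nat.card {x : U // A.Nd κ₀ j.1 x} = S := by
          rintro ⟨j, hj⟩ -
          have hj' := Finset.mem_Icc.1 hj
          exact hN j (by omega)
        rw [Finset.sum_congr rfl h2, Finset.sum_const, smul_eq_mul, Finset.card_univ,
          Fintype.card_coe, Nat.card_Icc]
        congr 1
        omega
      rw [← h1]
      refine Nat.card_le_card_of_injective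
        (β := {x // x ∈ ({x | ∃ j, A.Nd κ₀ j x ∧ C + 1 ≤ j ∧ j + C + 1 ≤ D} : Set U)})
        (fun p => ⟨p.2.1, p.1.1, p.2.2, ?_⟩) ?_
      · have hj' := Finset.mem_Icc.1 p.1.2
        omega
      · rintro ⟨⟨j, hj⟩, x, hx⟩ ⟨⟨j', hj'⟩, x', hx'⟩ h
        have h3 : x = x' := congrArg Subtype.val h
        subst h3
        obtain rfl := (nd_unique hA hx hx').2
        rfl
    have h5 : 3 * C ≤ D - 2 * C - 1 := by omega
    calc C * (_ + 1) ≤ C * (2 * S + 1) := Nat.mul_le_mul_left _ (Nat.add_le_add_right hb 1)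
      _ ≤ C * (3 * S) := Nat.mul_le_mul_left _ (by omega)
      _ = 3 * C * S := by ring
      _ ≤ (D - 2 * C - 1) * S := Nat.mul_le_mul_right _ h5
      _ ≤ _ := hX
  · rintro x ⟨j, hj, h1, h2⟩ y hxy
    have hr : (gaifman (LU s D) U).edist x y ≠ ⊤ := by
      intro h
      rw [h] at hxy
      exact absurd hxy (by simp)
    obtain ⟨p, hp⟩ := SimpleGraph.exists_walk_of_edist_ne_top hr
    rw [← hp] at hxy
    have hp' : p.length ≤ C := by exact_mod_cast hxy
    obtain ⟨k, hk, hk0, hkD⟩ := encTP_walk hA p j (by omega) (by omega) hj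
    refine ⟨?_, fun w hw => ?_⟩
    · have hsub : (gaifman (LU s D) U).neighborSet y ⊆ {z | A.nx y z} ∪ {z | A.nx z y} :=
        fun z hz => encTP_nb hA hk0 hkD hk hz
      have s1 : Set.ncard {z : U | A.nx y z} ≤ 1 := by
        rw [Set.ncard_le_one (Set.toFinite _)]
        intro a ha b hb
        exact Pool.Agent.Helper79.TL.nx_out hA ha hb
      have s2 : Set.ncard {z : U | A.nx z y} ≤ 1 := by
        rw [Set.ncard_le_one (Set.toFinite _)]
        intro a ha b hb
        exact Pool.Agent.Helper79.TL.nx_in hA ha hb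
      calc _ ≤ _ := Set.ncard_le_ncard hsub (Set.toFinite _)
        _ ≤ _ := Set.ncard_union_le _ _
        _ ≤ 2 := by omega
    · have := girth_U hA (by omega) hw
      omega

end Pool.Agent.Helper37.GH
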