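import Mathlib
import Pool.Agent.Helper37.GH.Child

/-!
# GH-4: isomorphisms of tree balls
-/

set_option autoImplicit false

namespace Pool.Agent.Helper37.GH

private theorem le_succ_cases {a : ℕ∞} {r : ℕ} (h : a ≤ ((r + 1 : ℕ) : ℕ∞)) :
    a ≤ (r : ℕ∞) ∨ a = ((r + 1 : ℕ) : ℕ∞) := by
  cases a using ENat.recTopCoe with
  | top => exact absurd h (by simp)
  | coe n =>
    rw [Nat.cast_le] at h
    rcases Nat.lt_or_ge n (r + 1) with h1 | h1
    · left; exact Nat.cast_le.2 (by omega)
    · right; congr 1; omega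

private theorem ne_of_le' {a : ℕ∞} {r : ℕ} (h : a ≤ (r : ℕ∞)) : a ≠ ((r + 1 : ℕ) : ℕ∞) := by
  rintro rfl
  rw [Nat.cast_le] at h
  omega

private theorem adj_dist {V : Type} {G : SimpleGraph V} {x y z : V} {r : ℕ} (hyz : G.Adj y z)
    (hz : G.edist x z = ((r + 1 : ℕ) : ℕ∞)) (hy : G.edist x y ≤ (r : ℕ∞)) : G.edist x y = r := by
  have h1 : G.edist x z ≤ G.edist x y + G.edist y z := SimpleGraph.edist_triangle
  rw [SimpleGraph.edist_eq_one_iff_adj.2 hyz, hz] at h1
  revert h1 hy
  cases G.edist x y using ENat.recTopCoe with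
  | top => intro h; exact absurd h (by simp)
  | coe n =>
    intro hy h1
    rw [Nat.cast_le] at hy
    have h2 : r + 1 ≤ n + 1 := by exact_mod_cast h1
    congr 1
    omega

private theorem exists_par {V : Type} {G : SimpleGraph V} {x z : V} {r : ℕ}
    (hz : G.edist x z = ((r + 1 : ℕ) : ℕ∞)) : ∃ y, G.edist x y = r ∧ G.Adj y z := by
  obtain ⟨p, hp⟩ := SimpleGraph.exists_walk_of_edist_eq_coe hz
  obtain ⟨q, hq⟩ : ∃ q : G.Walk z x, q.length = r + 1 :=
    ⟨p.reverse, by rw [SimpleGraph.Walk.length_reverse, hp]⟩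
  cases q with
  | nil => simp at hq
  | cons h q =>
    rw [SimpleGraph.Walk.length_cons] at hq
    have h1 : G.edist x _ ≤ (q.reverse.length : ℕ∞) := SimpleGraph.edist_le q.reverse
    rw [SimpleGraph.Walk.length_reverse] at h1
    have h2 : q.length = r := by omega
    rw [h2] at h1
    exact ⟨_, adj_dist h.symm hz h1, h.symm⟩

/-- Given `children` for all `y` at distance `r`, extend `e` to the points at distance `r + 1`. -/
theorem step {Λ V V' : Type} [Finite Λ] [Finite V] [Finite V'] {E : LG Λ V} {E' : LG Λ V'}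
    {T R : ℕ} {x : V} {x' : V'} (hc : Coh E E') (h : Lev E.G T R x) (h' : Lev E'.G T R x')
    {r : ℕ} (hrR : r + 1 ≤ R) {e : V → V'} (he : Part E E' T R x x' r e)
    (hch : ∀ y, E.G.edist x y = r → ∃ f : V → V',
      Set.BijOn f (ch E.G x r y) (ch E'.G x' r (e y)) ∧
      ∀ z ∈ ch E.G x r y, br E T (R - (r + 1)) y z = br E' T (R - (r + 1)) (e y) (f z)) :
    ∃ e' : V → V', Part E E' T R x x' (r + 1) e' := by
  classical
  have : Nonempty V := ⟨x⟩
  have : Nonempty V' := ⟨x'⟩
  choose! F hF using hch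
  have hpar0 : ∀ z, E.G.edist x z = ((r + 1 : ℕ) : ℕ∞) → ∃ y, E.G.edist x y = r ∧ E.G.Adj y z :=
    fun z hz => exists_par hz
  choose! par hpar using hpar0
  -- the unique parent
  have huniq : ∀ y z, E.G.edist x y = r → E.G.edist x z = ((r + 1 : ℕ) : ℕ∞) → E.G.Adj y z →
      par z = y := fun y z hy hz hyz =>
    h.uniq r (par z) y z hrR (hpar z hz).1 hy hz (hpar z hz).2 hyz
  obtain ⟨e', he'd⟩ : ∃ e' : V → V', e' = fun z =>
      if E.G.edist x z = ((r + 1 : ℕ) : ℕ∞) then F (par z) z else e z := ⟨_, rfl⟩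
  have hlow : ∀ z, E.G.edist x z ≤ (r : ℕ∞) → e' z = e z := fun z hz => by
    rw [he'd]
    simp only
    rw [if_neg (ne_of_le' hz)]
  have hhigh : ∀ z, E.G.edist x z = ((r + 1 : ℕ) : ℕ∞) → e' z = F (par z) z := fun z hz => by
    rw [he'd]
    simp only
    rw [if_pos hz]
  have hedge : ∀ y z, E.G.edist x y = r → E.G.edist x z = ((r + 1 : ℕ) : ℕ∞) → E.G.Adj y z →
      e' z = F y z := fun y z hy hz hyz => by rw [hhigh z hz, huniq y z hy hz hyz]
  have hchz : ∀ z, E.G.edist x z = ((r + 1 : ℕ) : ℕ∞) →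
      E'.G.Adj (e (par z)) (e' z) ∧ E'.G.edist x' (e' z) = ((r + 1 : ℕ) : ℕ∞) := fun z hz => by
    have h1 := hpar z hz
    have h2 := (hF (par z) h1.1).1.mapsTo (show z ∈ ch E.G x r (par z) from ⟨h1.2, hz⟩)
    rw [← hhigh z hz] at h2
    exact h2
  have hr0 : (r : ℕ∞) ≤ ((r + 1 : ℕ) : ℕ∞) := Nat.cast_le.2 (by omega)
  have hdist : ∀ y, E.G.edist x y ≤ ((r + 1 : ℕ) : ℕ∞) →
      E'.G.edist x' (e' y) = E.G.edist x y := by
    intro y hy
    rcases le_succ_cases hy with h1 | h1
    · rw [hlow y h1, he.dist y h1]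
    · rw [(hchz y h1).2, h1]
  have hle : ∀ {y : V}, E.G.edist x y = r → E.G.edist x y ≤ (r : ℕ∞) := fun h => h.le
  -- adjacency between a low and a high point
  have hadj : ∀ y z, E.G.edist x y ≤ (r : ℕ∞) → E.G.edist x z = ((r + 1 : ℕ) : ℕ∞) →
      (E.G.Adj y z ↔ E'.G.Adj (e' y) (e' z)) := by
    intro y z hy hz
    rw [hlow y hy]
    constructor
    · intro hyz
      have h1 := adj_dist hyz hz hy
      have h2 := (hchz z hz).1
      rwa [huniq y z h1 hz hyz] at h2
    · intro hyz
      have h0 : E'.G.edist x' (e y) ≤ (r : ℕ∞) := by rw [he.dist y hy]; exact hy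
      have h1 := adj_dist hyz (hchz z hz).2 h0
      have h2 : E'.G.edist x' (e (par z)) = r := by
        rw [he.dist _ (hle (hpar z hz).1), (hpar z hz).1]
      have h3 : e y = e (par z) :=
        h'.uniq r (e y) (e (par z)) (e' z) hrR h1 h2 (hchz z hz).2 hyz (hchz z hz).1
      have h4 : y = par z := he.inj _ _ hy (hle (hpar z hz).1) h3
      rw [h4]
      exact (hpar z hz).2
  -- the label of an edge between a low and a high point
  have hlab : ∀ y z, E.G.edist x y ≤ (r : ℕ∞) → E.G.edist x z = ((r + 1 : ℕ) : ℕ∞) →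
      E.G.Adj y z → E.el y z = E'.el (e' y) (e' z) := by
    intro y z hy hz hyz
    have h1 := adj_dist hyz hz hy
    have h2 := (hF y h1).2 z ⟨hyz, hz⟩
    rw [hlow y hy, hedge y z h1 hz hyz]
    exact br_lab h2
  refine ⟨e', ⟨⟨?_, hdist, ?_, ?_, ?_, ?_⟩, ?_⟩⟩
  · -- root
    rw [hlow x (by rw [SimpleGraph.edist_self]; exact zero_le)]
    exact he.root
  · -- inj
    intro y z hy hz hyz
    have hd : E.G.edist x y = E.G.edist x z := by rw [← hdist y hy, ← hdist z hz, hyz]
    rcases le_succ_cases hy with h1 | h1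
    · have h2 : E.G.edist x z ≤ (r : ℕ∞) := by rw [← hd]; exact h1
      rw [hlow y h1, hlow z h2] at hyz
      exact he.inj y z h1 h2 hyz
    · have h2 : E.G.edist x z = ((r + 1 : ℕ) : ℕ∞) := by rw [← hd]; exact h1
      have py := hpar y h1
      have pz := hpar z h2
      have ha : E'.G.edist x' (e (par y)) = r := by rw [he.dist _ (hle py.1), py.1]
      have hb : E'.G.edist x' (e (par z)) = r := by rw [he.dist _ (hle pz.1), pz.1]
      have h3 : e (par y) = e (par z) := by
        refine h'.uniq r _ _ (e' y) hrR ha hb (hchz y h1).2 (hchz y h1).1 ?_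
        rw [hyz]
        exact (hchz z h2).1
      have h4 : par y = par z := he.inj _ _ (hle py.1) (hle pz.1) h3
      have h5 : F (par y) y = F (par y) z := by
        rw [← hhigh y h1, hyz, hhigh z h2, h4]
      exact (hF (par y) py.1).1.injOn ⟨py.2, h1⟩ ⟨h4 ▸ pz.2, h2⟩ h5
  · -- surj
    intro y' hy'
    rcases le_succ_cases hy' with h1 | h1
    · obtain ⟨y, hy, hy2⟩ := he.surj y' h1
      exact ⟨y, hy.trans hr0, by rw [hlow y hy]; exact hy2⟩
    · obtain ⟨a', ha', haa⟩ := exists_par h1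
      obtain ⟨a, ha, rfl⟩ := he.surj a' ha'.le
      have ha2 : E.G.edist x a = r := by rw [← he.dist a ha]; exact ha'
      obtain ⟨z, hz, hz2⟩ := (hF a ha2).1.surjOn (show y' ∈ ch E'.G x' r (e a) from ⟨haa, h1⟩)
      exact ⟨z, hz.2.le, by rw [hedge a z ha2 hz.2 hz.1]; exact hz2⟩
  · -- adj
    intro y z hy hz
    rcases le_succ_cases hy with h1 | h1
    · rcases le_succ_cases hz with h2 | h2
      · rw [hlow y h1, hlow z h2]
        exact he.adj y z h1 h2
      · exact hadj y z h1 h2
    · rcases le_succ_cases hz with h2 | h2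
      · rw [E.G.adj_comm, E'.G.adj_comm]
        exact hadj z y h2 h1
      · exact iff_of_false (h.flat (r + 1) y z hrR h1 h2)
          (h'.flat (r + 1) (e' y) (e' z) hrR (hchz y h1).2 (hchz z h2).2)
  · -- lab
    intro y z hy hz hyz
    rcases le_succ_cases hy with h1 | h1
    · rcases le_succ_cases hz with h2 | h2
      · rw [hlow y h1, hlow z h2]
        exact he.lab y z h1 h2 hyz
      · rcases hyz with rfl | hyz
        · exact absurd h2 (ne_of_le' h1)
        · exact hlab y z h1 h2 hyz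
    · rcases le_succ_cases hz with h2 | h2
      · rcases hyz with rfl | hyz
        · exact absurd h1 (ne_of_le' h2)
        · have h3 := hlab z y h2 h1 hyz.symm
          exact (hc z y (e' z) (e' y) hyz.symm ((hadj z y h2 h1).1 hyz.symm) h3).1
      · rcases hyz with rfl | hyz
        · have hp := hpar y h1
          have h3 := hlab (par y) y (hle hp.1) h1 hp.2
          exact (hc _ _ _ _ hp.2 ((hadj (par y) y (hle hp.1) h1).1 hp.2) h3).2.2
        · exact absurd hyz (h.flat (r + 1) y z hrR h1 h2)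
  · -- cls
    intro s y z hs hy hz hyz
    rcases Nat.lt_or_ge s r with h1 | h1
    · have hy1 : E.G.edist x y ≤ (r : ℕ∞) := by rw [hy]; exact Nat.cast_le.2 (by omega)
      have hz1 : E.G.edist x z ≤ (r : ℕ∞) := by rw [hz]; exact Nat.cast_le.2 (by omega)
      rw [hlow y hy1, hlow z hz1]
      exact he.cls s y z (by omega) hy hz hyz
    · have hsr : s = r := by omega
      subst hsr
      rw [hlow y hy.le, hedge y z hy hz hyz]
      exact (hF y hy).2 z ⟨hyz, hz⟩

theorem tiso {Λ V V' : Type} [Finite Λ] [Finite V] [Finite V'] {E : LG Λ V} {E' : LG Λ V'}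
    {T R : ℕ} {x : V} {x' : V'} (hc : Coh E E') (h : Lev E.G T R x) (h' : Lev E'.G T R x')
    (hr : rt E T R x = rt E' T R x') : ∃ e : V → V', BallIso E E' R x x' e := by
  have key : ∀ r, r ≤ R → ∃ e : V → V', Part E E' T R x x' r e := by
    intro r
    induction r with
    | zero =>
      intro _
      have h0 : ∀ y, E.G.edist x y ≤ ((0 : ℕ) : ℕ∞) → y = x := fun y hy => by
        have h1 : E.G.edist x y = 0 := by simpa using hy
        exact (SimpleGraph.edist_eq_zero_iff.1 h1).symm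
      have h0' : ∀ y, E'.G.edist x' y ≤ ((0 : ℕ) : ℕ∞) → y = x' := fun y hy => by
        have h1 : E'.G.edist x' y = 0 := by simpa using hy
        exact (SimpleGraph.edist_eq_zero_iff.1 h1).symm
      refine ⟨fun _ => x', ⟨⟨rfl, ?_, ?_, ?_, ?_, ?_⟩, ?_⟩⟩
      · intro y hy
        rw [h0 y hy, SimpleGraph.edist_self, SimpleGraph.edist_self]
      · intro y z hy hz _
        rw [h0 y hy, h0 z hz]
      · intro y' hy'
        exact ⟨x, by rw [SimpleGraph.edist_self]; exact zero_le, (h0' y' hy').symm⟩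
      · intro y z hy hz
        rw [h0 y hy, h0 z hz]
        exact iff_of_false (E.G.irrefl) (E'.G.irrefl)
      · intro y z hy hz _
        rw [h0 y hy, h0 z hz]
        exact congrArg Prod.fst hr
      · intro s y z hs
        omega
    | succ r ih =>
      intro hrR
      obtain ⟨e, he⟩ := ih (by omega)
      exact step hc h h' hrR he (fun y hy => children h h' hr hrR he hy)
  obtain ⟨e, he⟩ := key R le_rfl
  exact ⟨e, he.toBallIso⟩

end Pool.Agent.Helper37.GH
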