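import Mathlib
import Pool.Agent.Helper37.GH.Defs

/-!
# GH-7: finite groups without short relations
-/

set_option autoImplicit false

namespace Pool.Agent.Helper37.GH

/-- a partial injection of a finite type extends to a permutation -/
theorem Grp_extend {α : Type} [Finite α] (R : α → α → Prop)
    (h1 : ∀ x y y', R x y → R x y' → y = y') (h2 : ∀ x x' y, R x y → R x' y → x = x') :
    ∃ σ : Equiv.Perm α, ∀ x y, R x y → σ x = y := by
  classical
  have : Fintype α := Fintype.ofFinite α
  let φ : {x // ∃ y, R x y} → α := fun x => x.2.choose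
  have hφ : Function.Injective φ := by
    intro x x' h
    have e1 : R x.1 (φ x) := x.2.choose_spec
    have e2 : R x'.1 (φ x') := x'.2.choose_spec
    rw [← h] at e2
    exact Subtype.ext (h2 _ _ _ e1 e2)
  refine ⟨Equiv.extendSubtype (q := fun x => x ∈ Set.range φ) (Equiv.ofInjective φ hφ), ?_⟩
  intro x y hxy
  have hx : ∃ y, R x y := ⟨y, hxy⟩
  rw [Equiv.extendSubtype_apply_of_mem _ x hx]
  exact h1 x _ _ hx.choose_spec hxy

/-- reduced words of length at most `ℓ` -/
abbrev GrpW {D : Type} (ι : D → D) (ℓ : ℕ) : Type :=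
  {w : List D // w.length ≤ ℓ ∧ w.IsChain (fun a b => b ≠ ι a)}

/-- reduced words are determined by their entries -/
theorem Grp_inj {D : Type} (ι : D → D) (ℓ : ℕ) :
    Function.Injective (fun (w : GrpW ι ℓ) (i : Fin ℓ) => w.1[(i : ℕ)]?) := by
  intro w w' h
  apply Subtype.ext
  apply List.ext_getElem?
  intro i
  by_cases hi : i < ℓ
  · exact congrFun h ⟨i, hi⟩
  · have h1 := w.2.1
    have h2 := w'.2.1
    rw [List.getElem?_eq_none (by omega), List.getElem?_eq_none (by omega)]

theorem Grp_finite {D : Type} [Finite D] (ι : D → D) (ℓ : ℕ) : Finite (GrpW ι ℓ) :=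
  Finite.of_injective _ (Grp_inj ι ℓ)

theorem Grp_card {D : Type} [Finite D] (ι : D → D) (ℓ N : ℕ) (hN : Nat.card D ≤ N) :
    Nat.card (GrpW ι ℓ) ≤ (N + 1) ^ ℓ := by
  have h := Nat.card_le_card_of_injective _ (Grp_inj ι ℓ)
  rw [Nat.card_fun, Nat.card_eq_fintype_card (α := Fin ℓ), Fintype.card_fin,
    Finite.card_option] at h
  exact h.trans (Nat.pow_le_pow_left (by omega) ℓ)

theorem Grp_perm {D : Type} [Finite D] (ι : D → D) (hι : ∀ e, ι (ι e) = e)
    (hne : ∀ e, ι e ≠ e) (ℓ : ℕ) :
    ∃ σ : D → Equiv.Perm (GrpW ι ℓ), (∀ e, σ (ι e) = (σ e)⁻¹) ∧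
      ∀ (e : D) (w w' : GrpW ι ℓ), w'.1 = e :: w.1 → σ e w = w' := by
  have hfin := Grp_finite ι ℓ
  have hτ : ∀ e : D, ∃ τ : Equiv.Perm (GrpW ι ℓ), ∀ w w' : GrpW ι ℓ,
      (w'.1 = e :: w.1 ∨ w.1 = ι e :: w'.1) → τ w = w' := by
    intro e
    refine Grp_extend _ ?_ ?_
    · intro x y y' h h'
      rcases h with h | h <;> rcases h' with h' | h'
      · exact Subtype.ext (h.trans h'.symm)
      · exfalso
        have h3 := y.2.2
        rw [h, h', List.isChain_cons_cons] at h3
        exact h3.1 rfl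
      · exfalso
        have h3 := y'.2.2
        rw [h', h, List.isChain_cons_cons] at h3
        exact h3.1 rfl
      · apply Subtype.ext
        have h3 := h.symm.trans h'
        exact (List.cons.inj h3).2
    · intro x x' y h h'
      rcases h with h | h <;> rcases h' with h' | h'
      · apply Subtype.ext
        have h3 := h.symm.trans h'
        exact (List.cons.inj h3).2
      · exfalso
        have h3 := x'.2.2
        rw [h', h, List.isChain_cons_cons] at h3
        exact h3.1 (hι e).symm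
      · exfalso
        have h3 := x.2.2
        rw [h, h', List.isChain_cons_cons] at h3
        exact h3.1 (hι e).symm
      · exact Subtype.ext (h.trans h'.symm)
  choose τ hτ using hτ
  obtain ⟨n, ⟨f⟩⟩ := Finite.exists_equiv_fin D
  classical
  refine ⟨fun e => if f e < f (ι e) then τ e else (τ (ι e))⁻¹, fun e => ?_, fun e w w' h => ?_⟩
  · have hfe : f (ι e) ≠ f e := fun h => hne e (f.injective h)
    simp only [hι]
    rcases lt_or_gt_of_ne hfe with h | h
    · rw [if_pos h, if_neg (not_lt.2 h.le), inv_inv]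
    · rw [if_neg (not_lt.2 h.le), if_pos h]
  · by_cases hfe : f e < f (ι e)
    · simp only [if_pos hfe]
      exact hτ e w w' (Or.inl h)
    · simp only [if_neg hfe]
      rw [Equiv.Perm.inv_eq_iff_eq]
      refine (hτ (ι e) w' w (Or.inr ?_)).symm
      rw [hι, h]

/-- `W` = reduced words of length at most `ℓ` in the darts (lists with `IsChain (fun a b => b ≠ ι a)`), `H` = permutations
of `W` times the cyclic group of order `t`. Choose one dart of each pair `{e, ι e}`; its permutation extends the partial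
injection `w ↦ e :: w` (or cancels `ι e`), `Equiv.extendSubtype`; the other dart gets the inverse. A reduced word maps the
empty word to a nonempty one. -/
theorem exists_group (N ℓ : ℕ) : ∃ F : ℕ, ∀ (D : Type) [Finite D], Nat.card D ≤ N → ∀ ι : D → D,
    (∀ e, ι (ι e) = e) → (∀ e, ι e ≠ e) → ∃ m : ℕ, 0 < m ∧ m ≤ F ∧ ∀ t : ℕ, 0 < t →
      ∃ (H : Type) (_ : Group H) (_ : Finite H) (g : D → H), Nat.card H = m * t ∧
        (∀ e, g (ι e) = (g e)⁻¹) ∧ NoRel ι g ℓ := by
  refine ⟨((N + 1) ^ ℓ).factorial, fun D _ hN ι hι hne => ?_⟩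
  have hfin := Grp_finite ι ℓ
  obtain ⟨σ, hσ1, hσ2⟩ := Grp_perm ι hι hne ℓ
  refine ⟨(Nat.card (GrpW ι ℓ)).factorial, Nat.factorial_pos _,
    Nat.factorial_le (Grp_card ι ℓ N hN), fun t ht => ?_⟩
  have : NeZero t := ⟨ht.ne'⟩
  refine ⟨Equiv.Perm (GrpW ι ℓ) × Multiplicative (ZMod t), inferInstance, inferInstance,
    fun e => (σ e, 1), ?_, fun e => ?_, ?_⟩
  · rw [Nat.card_prod, Nat.card_perm, Nat.card_congr Multiplicative.toAdd, Nat.card_zmod]
  · exact Prod.ext (hσ1 e) inv_one.symm
  · intro w hw0 hwl hwc hprod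
    have key : ∀ (w : List D) (hw : w.length ≤ ℓ ∧ w.IsChain (fun a b => b ≠ ι a)),
        (w.map σ).prod ⟨[], Nat.zero_le _, List.isChain_nil⟩ = ⟨w, hw⟩ := by
      intro w
      induction w with
      | nil => intro hw; rfl
      | cons e w ih =>
        intro hw
        have hw' : w.length ≤ ℓ ∧ w.IsChain (fun a b => b ≠ ι a) :=
          ⟨by have := hw.1; rw [List.length_cons] at this; omega, hw.2.tail⟩
        rw [List.map_cons, List.prod_cons, Equiv.Perm.mul_apply, ih hw']
        exact hσ2 e _ _ rfl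
    have h1 := congrArg (MonoidHom.fst (Equiv.Perm (GrpW ι ℓ)) (Multiplicative (ZMod t))) hprod
    rw [map_list_prod, List.map_map, map_one] at h1
    have h2 : (w.map σ).prod = 1 := h1
    have h3 := key w ⟨hwl, hwc⟩
    rw [h2] at h3
    exact hw0 (congrArg Subtype.val h3).symm

end Pool.Agent.Helper37.GH
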