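import Mathlib
import Pool.Agent.Helper37.GH.Defs

/-!
# GH-5: distances
-/

set_option autoImplicit false

namespace Pool.Agent.Helper37.GH

open Pool.Agent.Helper72.TW (PM)

/-- Walks in the ball are mapped to walks. -/
private theorem push {Λ V V' : Type} {E : LG Λ V} {E' : LG Λ V'} {R : ℕ} {x : V} {x' : V'}
    {e : V → V'} (h : BallIso E E' R x x' e) {a b : V} (w : E.G.Walk a b) :
    E.G.edist x a + w.length ≤ R → E'.G.edist (e a) (e b) ≤ w.length := by
  induction w with
  | nil => intro _; simp
  | @cons a c b hac p ih =>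
    intro hl
    have hl' : E.G.edist x a + ((p.length : ℕ∞) + 1) ≤ R := by
      simpa using hl
    have h1 : E.G.edist a c = 1 := E.G.edist_eq_one_iff_adj.mpr hac
    have hc : E.G.edist x c ≤ E.G.edist x a + 1 := by
      have := E.G.edist_triangle (u := x) (v := a) (w := c)
      rwa [h1] at this
    have hca : E.G.edist x c + p.length ≤ R := by
      calc E.G.edist x c + p.length ≤ (E.G.edist x a + 1) + p.length := by gcongr
        _ = E.G.edist x a + ((p.length : ℕ∞) + 1) := by ring
        _ ≤ R := hl'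
    have ha : E.G.edist x a ≤ R := le_trans le_self_add hl'
    have hcR : E.G.edist x c ≤ R := le_trans le_self_add hca
    have hadj : E'.G.Adj (e a) (e c) := (h.adj a c ha hcR).mp hac
    have h1' : E'.G.edist (e a) (e c) = 1 := E'.G.edist_eq_one_iff_adj.mpr hadj
    calc E'.G.edist (e a) (e b) ≤ E'.G.edist (e a) (e c) + E'.G.edist (e c) (e b) :=
          E'.G.edist_triangle
      _ ≤ 1 + p.length := by rw [h1']; gcongr; exact ih hca
      _ = ((SimpleGraph.Walk.cons hac p).length : ℕ∞) := by
          simp [add_comm]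

/-- Walks in the image ball are images of walks. -/
private theorem pull {Λ V V' : Type} {E : LG Λ V} {E' : LG Λ V'} {R : ℕ} {x : V} {x' : V'}
    {e : V → V'} (h : BallIso E E' R x x' e) {a' b' : V'} (w : E'.G.Walk a' b') :
    ∀ a, e a = a' → E.G.edist x a + w.length ≤ R →
      ∃ b, E.G.edist x b ≤ R ∧ e b = b' ∧ E.G.edist a b ≤ w.length := by
  induction w with
  | nil =>
    intro a ha hl
    exact ⟨a, by simpa using hl, ha, by simp⟩
  | @cons a' c' b' hac p ih =>
    intro a ha hl
    have hl' : E.G.edist x a + ((p.length : ℕ∞) + 1) ≤ R := by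
      simpa using hl
    have haR : E.G.edist x a ≤ R := le_trans le_self_add hl'
    have h1 : E'.G.edist a' c' = 1 := E'.G.edist_eq_one_iff_adj.mpr hac
    have hc' : E'.G.edist x' c' ≤ E.G.edist x a + 1 := by
      have h2 := E'.G.edist_triangle (u := x') (v := a') (w := c')
      rw [h1, ← ha, h.dist a haR] at h2
      exact h2
    have hc'R : E'.G.edist x' c' ≤ R := by
      refine hc'.trans (le_trans ?_ hl')
      gcongr
      exact le_add_self
    obtain ⟨c, hcR, hc⟩ := h.surj c' hc'R
    have hxc : E.G.edist x c ≤ E.G.edist x a + 1 := by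
      rw [← h.dist c hcR, hc]
      exact hc'
    have hadj : E.G.Adj a c := (h.adj a c haR hcR).mpr (by rw [ha, hc]; exact hac)
    have hcl : E.G.edist x c + p.length ≤ R := by
      calc E.G.edist x c + p.length ≤ (E.G.edist x a + 1) + p.length := by gcongr
        _ = E.G.edist x a + ((p.length : ℕ∞) + 1) := by ring
        _ ≤ R := hl'
    obtain ⟨b, hbR, hb, hcb⟩ := ih c hc hcl
    refine ⟨b, hbR, hb, ?_⟩
    have h1a : E.G.edist a c = 1 := E.G.edist_eq_one_iff_adj.mpr hadj
    calc E.G.edist a b ≤ E.G.edist a c + E.G.edist c b := E.G.edist_triangle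
      _ ≤ 1 + p.length := by rw [h1a]; gcongr
      _ = ((SimpleGraph.Walk.cons hac p).length : ℕ∞) := by
          simp [add_comm]

/-- An isomorphism of balls of radius `R ≥ 3 * R0` preserves the distances in the ball of radius `R0`: shortest walks
between points of this ball stay in the ball of radius `3 * R0`. -/
theorem isometry {Λ V V' : Type} {E : LG Λ V} {E' : LG Λ V'} {R R0 : ℕ} (hR : 3 * R0 ≤ R) {x : V}
    {x' : V'} {e : V → V'} (h : BallIso E E' R x x' e) {y z : V} (hy : E.G.edist x y ≤ R0)
    (hz : E.G.edist x z ≤ R0) : E'.G.edist (e y) (e z) = E.G.edist y z := by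
  have hR' : ((R0 : ℕ∞) + (R0 + R0)) ≤ R := by
    have : R0 + (R0 + R0) ≤ R := by omega
    exact_mod_cast this
  have hR0R : (R0 : ℕ∞) ≤ R := le_trans le_self_add hR'
  have hyz : E.G.edist y z ≤ R0 + R0 := by
    calc E.G.edist y z ≤ E.G.edist y x + E.G.edist x z := E.G.edist_triangle
      _ ≤ R0 + R0 := by rw [E.G.edist_comm (u := y)]; gcongr
  have hyz' : E'.G.edist (e y) (e z) ≤ R0 + R0 := by
    calc E'.G.edist (e y) (e z) ≤ E'.G.edist (e y) x' + E'.G.edist x' (e z) :=
          E'.G.edist_triangle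
      _ ≤ R0 + R0 := by
          rw [E'.G.edist_comm (u := e y), h.dist y (hy.trans hR0R), h.dist z (hz.trans hR0R)]
          gcongr
  have hfin : ∀ t : ℕ∞, t ≤ R0 + R0 → t ≠ ⊤ := by
    intro t ht htop
    rw [htop] at ht
    have : ((R0 + R0 : ℕ) : ℕ∞) = ⊤ := by
      push_cast
      exact top_le_iff.mp ht
    exact ENat.natCast_ne_top _ this
  apply le_antisymm
  · obtain ⟨w, hw⟩ := SimpleGraph.exists_walk_of_edist_ne_top (hfin _ hyz)
    rw [← hw]
    refine push h w ?_
    rw [hw]
    exact le_trans (add_le_add hy hyz) hR'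
  · obtain ⟨w, hw⟩ := SimpleGraph.exists_walk_of_edist_ne_top (hfin _ hyz')
    obtain ⟨b, hbR, hb, hyb⟩ := pull h w y rfl (by
      rw [hw]
      exact le_trans (add_le_add hy hyz') hR')
    have : b = z := h.inj b z hbR (hz.trans hR0R) hb
    rw [← this, hb, ← hw]
    exact hyb

private theorem dm_coe {V : Type} (B : ℕ) (G : SimpleGraph V) (x y : V) :
    ((dm B G x y : ℕ) : ℕ∞) = min (G.edist x y) (B : ℕ∞) := by
  unfold dm
  apply ENat.natCast_toNat
  intro h
  have : ((B : ℕ) : ℕ∞) = ⊤ := top_le_iff.mp (h ▸ min_le_right _ _)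
  exact ENat.natCast_ne_top _ this

theorem dm_pm {V : Type} (B : ℕ) (G : SimpleGraph V) : PM (dm B G) := by
  refine ⟨fun x => ?_, fun x y => ?_, fun x y z => ?_⟩
  · have h := dm_coe B G x x
    simpa using h
  · unfold dm
    rw [G.edist_comm]
  · have h1 := dm_coe B G x z
    have h2 := dm_coe B G x y
    have h3 := dm_coe B G y z
    have : ((dm B G x z : ℕ) : ℕ∞) ≤ ((dm B G x y + dm B G y z : ℕ) : ℕ∞) := by
      push_cast
      rw [h1, h2, h3]
      rcases le_total (G.edist x y) (B : ℕ∞) with ha | ha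
      · rcases le_total (G.edist y z) (B : ℕ∞) with hb | hb
        · rw [min_eq_left ha, min_eq_left hb]
          exact (min_le_left _ _).trans G.edist_triangle
        · rw [min_eq_right hb]
          exact (min_le_right _ _).trans le_add_self
      · rw [min_eq_right ha]
        exact (min_le_right _ _).trans le_self_add
    exact_mod_cast this

theorem dm_le {V : Type} (B : ℕ) (G : SimpleGraph V) (x y : V) : dm B G x y ≤ B := by
  have h := dm_coe B G x y
  have : ((dm B G x y : ℕ) : ℕ∞) ≤ (B : ℕ∞) := by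
    rw [h]
    exact min_le_right _ _
  exact_mod_cast this

theorem dm_le_iff {V : Type} {B n : ℕ} (G : SimpleGraph V) (h : n < B) (x y : V) :
    dm B G x y ≤ n ↔ G.edist x y ≤ n := by
  have h1 := dm_coe B G x y
  have hnB : ¬ ((B : ℕ∞) ≤ n) := by
    intro h2
    have : B ≤ n := by exact_mod_cast h2
    omega
  have h2 : dm B G x y ≤ n ↔ ((dm B G x y : ℕ) : ℕ∞) ≤ (n : ℕ∞) := by
    norm_cast
  rw [h2, h1, min_le_iff]
  constructor
  · rintro (h3 | h3)
    · exact h3
    · exact absurd h3 hnB
  · exact fun h3 => Or.inl h3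

theorem dS_pm {A K : Type} (B : ℕ) (G : SimpleGraph A) (G' : SimpleGraph K) : PM (dS B G G') := by
  refine ⟨?_, ?_, ?_⟩
  · rintro (a | k)
    · exact (dm_pm B G).zero a
    · exact (dm_pm B G').zero k
  · rintro (a | k) (b | l)
    · exact (dm_pm B G).symm a b
    · rfl
    · rfl
    · exact (dm_pm B G').symm k l
  · rintro (a | k) (b | l) (c | m)
    · exact (dm_pm B G).tri a b c
    · exact le_add_self
    · exact (dm_le B G a c).trans le_self_add
    · exact le_self_add
    · exact le_self_add
    · exact (dm_le B G' k m).trans le_self_add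
    · exact le_add_self
    · exact (dm_pm B G').tri k l m

end Pool.Agent.Helper37.GH
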