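import Mathlib
import Pool.Agent.Helper37.GH.Defs

/-!
# GH-2: balls without short cycles are trees
-/

set_option autoImplicit false

namespace Pool.Agent.Helper37.GH

/-- Two different paths with the same ends: a cycle of length at most the sum of the lengths, through a point of one of
the paths. -/
theorem short_cycle {V : Type} {G : SimpleGraph V} {u v : V} (p q : G.Walk u v) (hp : p.IsPath)
    (hq : q.IsPath) (hpq : p ≠ q) :
    ∃ (y : V) (w : G.Walk y y), w.IsCycle ∧ w.length ≤ p.length + q.length ∧
      (y ∈ p.support ∨ y ∈ q.support) := by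
  obtain ⟨y, hy, _, c, hc, hl⟩ := hp.exists_isCycle_length_le_add_of_ne hq hpq
  exact ⟨y, c, hc, hl, Or.inl hy⟩

/-- A point on a walk from `x` is at distance at most the length of the walk. -/
theorem edist_le_of_mem {V : Type} {G : SimpleGraph V} {x y w : V} (p : G.Walk x y)
    (hw : w ∈ p.support) : G.edist x w ≤ p.length := by
  classical
  refine le_trans (SimpleGraph.edist_le (p.takeUntil w hw)) ?_
  exact_mod_cast p.length_takeUntil_le_length hw

/-- A geodesic followed by an edge to a point off the geodesic. -/
theorem concat_path {V : Type} {G : SimpleGraph V} {x y z : V} (p : G.Walk x y) (hp : p.IsPath)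
    (h : G.Adj y z) (hz : z ∉ p.support) : (p.concat h).IsPath := by
  rw [SimpleGraph.Walk.concat_eq_append, SimpleGraph.Walk.isPath_def]
  rw [SimpleGraph.Walk.support_append]
  simp only [SimpleGraph.Walk.support_cons, SimpleGraph.Walk.support_nil, List.tail_cons]
  rw [List.nodup_append]
  refine ⟨hp.support_nodup, by simp, ?_⟩
  intro a ha b hb hab
  simp only [List.mem_singleton] at hb
  subst hb
  exact hz (hab ▸ ha)

/-- A geodesic, which is a path. -/
theorem geod {V : Type} {G : SimpleGraph V} {x y : V} {r : ℕ} (h : G.edist x y = r) :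
    ∃ p : G.Walk x y, p.IsPath ∧ p.length = r := by
  have hne : G.edist x y ≠ ⊤ := by
    rw [h]; exact ENat.natCast_ne_top r
  obtain ⟨p, hp⟩ := SimpleGraph.exists_walk_of_edist_ne_top hne
  rw [h] at hp
  have hl : p.length = r := by exact_mod_cast hp
  refine ⟨p, ?_, hl⟩
  refine p.isPath_of_length_eq_dist ?_
  rw [hl]
  unfold SimpleGraph.dist
  rw [h]
  rfl

theorem lev_of_loc {V : Type} {G : SimpleGraph V} {T C R : ℕ} {x : V} (hC : 2 * R + 1 ≤ C)
    (h : Loc G T C R x) : Lev G T R x := by
  refine ⟨fun y hy => (h y hy).1, ?_, ?_⟩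
  · intro r y z hr hy hz hadj
    obtain ⟨p, hp, hpl⟩ := geod hy
    obtain ⟨q, hq, hql⟩ := geod hz
    have hzp : z ∉ p.support := by
      intro hzp
      classical
      have h1 : G.edist x z ≤ (p.takeUntil z hzp).length := SimpleGraph.edist_le _
      have h2 : (p.takeUntil z hzp).length < p.length :=
        SimpleGraph.Walk.length_takeUntil_lt_length hzp hadj.ne'
      rw [hz] at h1
      have h3 : r ≤ (p.takeUntil z hzp).length := by exact_mod_cast h1
      omega
    have hp' := concat_path p hp hadj hzp
    have hne : q ≠ p.concat hadj := by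
      intro he
      have := congrArg SimpleGraph.Walk.length he
      rw [SimpleGraph.Walk.length_concat] at this
      omega
    obtain ⟨w, hw, _, c, hc, hl⟩ := hq.exists_isCycle_length_le_add_of_ne hp' hne
    rw [SimpleGraph.Walk.length_concat] at hl
    have hwR : G.edist x w ≤ R := le_trans (edist_le_of_mem q hw) (by rw [hql]; exact_mod_cast hr)
    have := (h w hwR).2 c hc
    omega
  · intro r y z w hr hy hz hw hyw hzw
    by_contra hyz
    obtain ⟨p, hp, hpl⟩ := geod hy
    obtain ⟨q, hq, hql⟩ := geod hz
    have hoff : ∀ {y : V} (p : G.Walk x y), p.length = r → w ∉ p.support := by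
      intro y p hpl hwp
      have h1 := edist_le_of_mem p hwp
      rw [hw, hpl] at h1
      have : r + 1 ≤ r := by exact_mod_cast h1
      omega
    have hp' := concat_path p hp hyw (hoff p hpl)
    have hq' := concat_path q hq hzw (hoff q hql)
    have hne : p.concat hyw ≠ q.concat hzw := by
      intro he
      have := congrArg SimpleGraph.Walk.penultimate he
      simp only [SimpleGraph.Walk.penultimate_concat] at this
      exact hyz this
    obtain ⟨v, hv, _, c, hc, hl⟩ := hp'.exists_isCycle_length_le_add_of_ne hq' hne
    rw [SimpleGraph.Walk.length_concat, SimpleGraph.Walk.length_concat] at hl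
    have hvR : G.edist x v ≤ R := by
      refine le_trans (edist_le_of_mem _ hv) ?_
      rw [SimpleGraph.Walk.length_concat, hpl]
      exact_mod_cast hr
    have := (h v hvR).2 c hc
    omega

end Pool.Agent.Helper37.GH
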