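import Mathlib
import Pool.Agent.Helper37.GH.Cls

/-!
# GH-11: matching of darts
-/

set_option autoImplicit false

namespace Pool.Agent.Helper37.GH

/-- Enumerations of the fibres of a map. -/
private theorem exists_idx {D P : Type} [Finite D] (t : D → P) :
    ∃ idx : D → ℕ, (∀ e e', t e = t e' → idx e = idx e' → e = e') ∧
      (∀ e, idx e < {e' | t e' = t e}.ncard) ∧
      ∀ p k, k < {e | t e = p}.ncard → ∃ e, t e = p ∧ idx e = k := by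
  have hq : ∀ p : P, Nonempty ({e | t e = p} ≃ Fin ({e | t e = p}.ncard)) := by
    intro p
    exact ⟨Finite.equivFinOfCardEq (Nat.card_coe_set_eq _)⟩
  let q : ∀ p : P, {e | t e = p} ≃ Fin ({e | t e = p}.ncard) := fun p => (hq p).some
  have key : ∀ (p : P) (e : D) (he : t e = p),
      ((q (t e) ⟨e, rfl⟩ : Fin _) : ℕ) = (q p ⟨e, he⟩ : Fin _) := by
    rintro _ e rfl
    rfl
  refine ⟨fun e => (q (t e) ⟨e, rfl⟩ : Fin _), ?_, fun e => (q (t e) ⟨e, rfl⟩).2, ?_⟩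
  · intro e e' h1 h2
    have h3 : ((q (t e') ⟨e, h1⟩ : Fin _) : ℕ) = (q (t e') ⟨e', rfl⟩ : Fin _) := by
      rw [← key (t e') e h1]
      exact h2
    have h4 := (q (t e')).injective (Fin.ext h3)
    exact congrArg Subtype.val h4
  · intro p k hk
    obtain ⟨⟨e, he⟩, h1⟩ := (q p).surjective ⟨k, hk⟩
    refine ⟨e, he, ?_⟩
    have h2 := key p e he
    simp only
    rw [h2, h1]

theorem exists_inv {D P : Type} [Finite D] (t : D → P) (s : P → P) (hs : ∀ p, s (s p) = p)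
    (h : ∀ p, {e | t e = p}.ncard = {e | t e = s p}.ncard) :
    ∃ ε : D → D, (∀ e, ε (ε e) = e) ∧ ∀ e, t (ε e) = s (t e) := by
  obtain ⟨idx, hinj, hlt, hsur⟩ := exists_idx t
  have h1 : ∀ e, ∃ e', t e' = s (t e) ∧ idx e' = idx e := fun e =>
    hsur _ _ (by rw [← h]; exact hlt e)
  choose ε h2 h3 using h1
  refine ⟨ε, fun e => ?_, h2⟩
  apply hinj
  · rw [h2, h2, hs]
  · rw [h3, h3]

/-- `V1 = Σ γ, Fin (h γ)` with a point `ρ1 v` of class `γ` for each element, `D1 = Σ v : V1, neighbours of ρ1 v`, the type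
of a dart `(v, z)` is `(br (ρ1 v) z, br z (ρ1 v))`; `ε` from `exists_inv` with `s = Prod.swap`. `V0 = V1 × Bool`,
`D = D1 × Bool`, `ι (e, b) = (ε e, !b)`. -/
theorem exists_sys {Λ A : Type} [Finite Λ] [Finite A] (E : LG Λ A) (T R : ℕ)
    [Fintype (Rt Λ T R)] (h : Rt Λ T R → ℕ) (P : A → Prop)
    (hP : ∀ x, P x → (E.G.neighborSet x).ncard ≤ T)
    (hrep : ∀ γ, h γ ≠ 0 → ∃ x, P x ∧ rt E T R x = γ)
    (hbal : ∀ c : Cl Λ T R × Cl Λ T R, ∑ γ, h γ * (γ.2 c : ℕ) = ∑ γ, h γ * (γ.2 c.swap : ℕ)) :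
    ∃ (V0 D : Type) (_ : Finite V0) (_ : Finite D) (src : D → V0) (ι : D → D) (ρ : V0 → A)
      (ν : D → A), (∀ e, ι (ι e) = e) ∧ (∀ e, ι e ≠ e) ∧
      (∀ v, Set.BijOn ν {e | src e = v} (E.G.neighborSet (ρ v))) ∧
      (∀ e, br E T R (ρ (src (ι e))) (ν (ι e)) = br E T R (ν e) (ρ (src e))) ∧
      Nat.card V0 = 2 * ∑ γ, h γ ∧ Nat.card D ≤ T * (2 * ∑ γ, h γ) ∧
      ∀ v, P (ρ v) ∧ h (rt E T R (ρ v)) ≠ 0 := by
  classical
  choose rep hrepP hrept using hrep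
  let V1 : Type := Σ γ : Rt Λ T R, Fin (h γ)
  have hne : ∀ v : V1, h v.1 ≠ 0 := fun v => (Fin.pos v.2).ne'
  let ρ1 : V1 → A := fun v => rep v.1 (hne v)
  have hρP : ∀ v, P (ρ1 v) := fun v => hrepP v.1 (hne v)
  have hρt : ∀ v, rt E T R (ρ1 v) = v.1 := fun v => hrept v.1 (hne v)
  let D1 : Type := Σ v : V1, {z : A // E.G.Adj (ρ1 v) z}
  have fV1 : Finite V1 := inferInstance
  have fD1 : Finite D1 := inferInstance
  let t1 : D1 → Cl Λ T R × Cl Λ T R := fun e =>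
    (br E T R (ρ1 e.1) e.2.1, br E T R e.2.1 (ρ1 e.1))
  -- the sizes of the fibres
  have hcard : ∀ c : Cl Λ T R × Cl Λ T R, {e | t1 e = c}.ncard = ∑ γ, h γ * (γ.2 c : ℕ) := by
    intro c
    have e1 : {e : D1 // t1 e = c} ≃
        Σ v : V1, {z : A // E.G.Adj (ρ1 v) z ∧ br E T R (ρ1 v) z = c.1 ∧
          br E T R z (ρ1 v) = c.2} :=
      { toFun := fun e => ⟨e.1.1, ⟨e.1.2.1, e.1.2.2, congrArg Prod.fst e.2, congrArg Prod.snd e.2⟩⟩
        invFun := fun e => ⟨⟨e.1, ⟨e.2.1, e.2.2.1⟩⟩, Prod.ext e.2.2.2.1 e.2.2.2.2⟩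
        left_inv := fun e => rfl
        right_inv := fun e => rfl }
    have h1 : {e | t1 e = c}.ncard = Nat.card {e : D1 // t1 e = c} :=
      (Nat.card_coe_set_eq {e | t1 e = c}).symm
    rw [h1, Nat.card_congr e1, Nat.card_sigma, Fintype.sum_sigma]
    refine Finset.sum_congr rfl fun γ _ => ?_
    have h2 : ∀ i : Fin (h γ), Nat.card {z : A // E.G.Adj (ρ1 ⟨γ, i⟩) z ∧
        br E T R (ρ1 ⟨γ, i⟩) z = c.1 ∧ br E T R z (ρ1 ⟨γ, i⟩) = c.2} = (γ.2 c : ℕ) := by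
      intro i
      have h3 := hρt ⟨γ, i⟩
      have h4 : ((rt E T R (ρ1 ⟨γ, i⟩)).2 c : ℕ) = (γ.2 c : ℕ) := by rw [h3]
      rw [← h4]
      have h5 : {z | E.G.Adj (ρ1 ⟨γ, i⟩) z ∧ br E T R (ρ1 ⟨γ, i⟩) z = c.1 ∧
          br E T R z (ρ1 ⟨γ, i⟩) = c.2}.ncard ≤ T :=
        (Set.ncard_le_ncard (fun z hz => hz.1) (Set.toFinite _)).trans (hP _ (hρP ⟨γ, i⟩))
      exact ((cap_eq h5).trans (Nat.card_coe_set_eq _).symm).symm
    rw [Finset.sum_congr rfl fun i _ => h2 i, Finset.sum_const, Finset.card_univ,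
      Fintype.card_fin, smul_eq_mul]
  obtain ⟨ε, hε, ht⟩ := exists_inv t1 Prod.swap (fun p => Prod.swap_swap p) fun c => by
    rw [hcard, hcard, hbal]
  have hV1 : Nat.card V1 = ∑ γ, h γ := by
    rw [Nat.card_sigma]
    exact Finset.sum_congr rfl fun γ _ => Nat.card_fin _
  have hD1 : Nat.card D1 ≤ T * ∑ γ, h γ := by
    rw [Nat.card_sigma, ← hV1, Nat.card_eq_fintype_card, mul_comm]
    refine Finset.sum_le_card_nsmul _ _ _ fun v _ => ?_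
    exact (Nat.card_coe_set_eq (E.G.neighborSet (ρ1 v))).le.trans (hP _ (hρP v))
  refine ⟨V1 × Bool, D1 × Bool, inferInstance, inferInstance, fun e => (e.1.1, e.2),
    fun e => (ε e.1, !e.2), fun v => ρ1 v.1, fun e => e.1.2.1, ?_, ?_, ?_, ?_, ?_, ?_, ?_⟩
  · rintro ⟨e, b⟩
    simp [hε]
  · rintro ⟨e, b⟩ he
    have := congrArg Prod.snd he
    cases b <;> simp at this
  · rintro ⟨v, b⟩
    refine ⟨?_, ?_, ?_⟩
    · rintro ⟨⟨v', z⟩, b'⟩ he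
      obtain ⟨rfl, rfl⟩ := Prod.ext_iff.1 he
      exact z.2
    · rintro ⟨⟨v', z⟩, b'⟩ he ⟨⟨v'', z'⟩, b''⟩ he' hz
      obtain ⟨rfl, rfl⟩ := Prod.ext_iff.1 he
      obtain ⟨h1, h2⟩ := Prod.ext_iff.1 he'
      simp only at h1 h2 hz
      subst h1 h2
      rw [Subtype.ext hz]
    · intro z hz
      exact ⟨(⟨v, ⟨z, hz⟩⟩, b), rfl, rfl⟩
  · rintro ⟨e, b⟩
    exact congrArg Prod.fst (ht e)
  · rw [Nat.card_prod, hV1, Nat.card_eq_fintype_card, Fintype.card_bool, mul_comm]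
  · rw [Nat.card_prod, Nat.card_eq_fintype_card (α := Bool), Fintype.card_bool]
    calc Nat.card D1 * 2 ≤ (T * ∑ γ, h γ) * 2 := Nat.mul_le_mul_right _ hD1
      _ = T * (2 * ∑ γ, h γ) := by ring
  · rintro ⟨v, b⟩
    refine ⟨hρP v, ?_⟩
    rw [hρt v]
    exact hne v

end Pool.Agent.Helper37.GH
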