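import Mathlib
import Pool.Agent.Helper37.GH.Cover

/-!
# GH-9: the covering graph has no short cycles
-/

set_option autoImplicit false

namespace Pool.Agent.Helper37.GH

/-- The darts of a cycle form a reduced word (points at distance two on the cycle are different, its length is at least
three) with product `1`. Suggestion: for a walk `w` from `x` to `y` define the list of its darts by recursion (existence by
`adj_iff`); `y.2 = x.2 * product`. -/
theorem no_cycle {V0 D H : Type} [Group H] {S : DS V0 D H} {ℓ : ℕ} (h2 : 2 ≤ ℓ)
    (hN : NoRel S.ι S.g ℓ) (x : V0 × H) (w : (cov S).Walk x x) (hw : w.IsCycle) : ℓ < w.length := by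
  by_contra hlt
  push Not at hlt
  have h3 := hw.three_le_length
  have hN2 : NoRel S.ι S.g 2 := fun u hu hl hc => hN u hu (hl.trans h2) hc
  have hex : ∀ i, i < w.length → ∃ e, IsDart S e (w.getVert i) (w.getVert (i + 1)) := fun i hi =>
    (adj_iff hN2).1 (w.adj_getVert_succ hi)
  have : Nonempty D := ⟨(hex 0 (by omega)).choose⟩
  choose! d hd using hex
  have hprod : ∀ k, k ≤ w.length →
      (w.getVert k).2 = x.2 * ((List.range k).map (fun i => S.g (d i))).prod := by
    intro k
    induction k with
    | zero => intro _; simp
    | succ k ih =>
      intro hk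
      rw [List.range_succ, List.map_append, List.prod_append, ← mul_assoc, ← ih (by omega),
        (hd k (by omega)).2.2]
      simp
  refine hN ((List.range w.length).map d) ?_ ?_ ?_ ?_
  · intro h
    have := congrArg List.length h
    simp only [List.length_map, List.length_range, List.length_nil] at this
    omega
  · simpa using hlt
  · rw [List.isChain_iff_getElem]
    intro i hi
    simp only [List.length_map, List.length_range] at hi
    simp only [List.getElem_map, List.getElem_range]
    intro heq
    have h1 := hd i (by omega)
    have h4 := hd (i + 1) hi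
    have hv : w.getVert (i + 2) = w.getVert i := by
      apply Prod.ext
      · have h5 := h4.2.1
        rw [heq, S.ι_ι, h1.1] at h5
        exact h5.symm
      · have h5 := h4.2.2
        rw [heq, S.g_ι, h1.2.2] at h5
        simpa [mul_assoc] using h5
    have hinj := hw.getVert_injOn
    rcases Nat.eq_zero_or_pos i with h0 | h0
    · subst h0
      have h6 : w.getVert (0 + 2) = w.getVert w.length := by
        rw [hv]
        simp
      have := hinj (show (0 + 2) ∈ {i | 1 ≤ i ∧ i ≤ w.length} from ⟨by omega, by omega⟩)
        (show w.length ∈ {i | 1 ≤ i ∧ i ≤ w.length} from ⟨by omega, by omega⟩) h6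
      omega
    · have := hinj (show (i + 2) ∈ {i | 1 ≤ i ∧ i ≤ w.length} from ⟨by omega, by omega⟩)
        (show i ∈ {i | 1 ≤ i ∧ i ≤ w.length} from ⟨by omega, by omega⟩) hv
      omega
  · have h5 := hprod w.length le_rfl
    rw [w.getVert_length] at h5
    rw [List.map_map]
    exact (mul_eq_left.1 h5.symm)

end Pool.Agent.Helper37.GH
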