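import Mathlib
import Pool.Agent.Helper37.GH.Defs

/-!
# GH-13: scattered points
-/

set_option autoImplicit false

namespace Pool.Agent.Helper37.GH

theorem ball_ncard_le {A : Type} [Finite A] (G : SimpleGraph A) (T r : ℕ) (x : A)
    (h : ∀ y, G.edist x y ≤ r → (G.neighborSet y).ncard ≤ T) (s : ℕ) (hs : s ≤ r) :
    {y | G.edist x y ≤ s}.ncard ≤ (T + 1) ^ s := by
  classical
  have := Fintype.ofFinite A
  induction s with
  | zero =>
    have : {y | G.edist x y ≤ ((0 : ℕ) : ℕ∞)} ⊆ {x} := by
      intro y hy
      have h1 : y = x := by simpa using hy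
      exact h1
    calc {y | G.edist x y ≤ ((0 : ℕ) : ℕ∞)}.ncard ≤ ({x} : Set A).ncard :=
          Set.ncard_le_ncard this (Set.toFinite _)
      _ = 1 := Set.ncard_singleton x
      _ = (T + 1) ^ 0 := by simp
  | succ s ih =>
    have ih' := ih (by omega)
    have hsub : {y | G.edist x y ≤ ((s + 1 : ℕ) : ℕ∞)} ⊆
        {y | G.edist x y ≤ (s : ℕ∞)} ∪ ⋃ y ∈ {y | G.edist x y ≤ (s : ℕ∞)}, G.neighborSet y := by
      intro z hz
      have hz' : G.edist z x ≤ ((s + 1 : ℕ) : ℕ∞) := by
        rw [SimpleGraph.edist_comm]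
        exact hz
      have hne : G.edist z x ≠ ⊤ := by
        intro htop
        rw [htop] at hz'
        exact absurd hz' (by simp)
      obtain ⟨p, hp⟩ := SimpleGraph.exists_walk_of_edist_ne_top hne
      rw [← hp] at hz'
      have hlen : p.length ≤ s + 1 := by exact_mod_cast hz'
      cases p with
      | nil =>
        left
        show G.edist x x ≤ _
        simp
      | @cons _ w _ hadj q =>
        right
        simp only [SimpleGraph.Walk.length_cons] at hlen
        refine Set.mem_biUnion (x := w) ?_ ?_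
        · show G.edist x w ≤ _
          rw [SimpleGraph.edist_comm]
          refine (SimpleGraph.Walk.edist_le q).trans ?_
          exact_mod_cast (by omega : q.length ≤ s)
        · exact hadj.symm
    have hun : (⋃ y ∈ {y | G.edist x y ≤ (s : ℕ∞)}, G.neighborSet y).ncard ≤
        (T + 1) ^ s * T := by
      have hU : (⋃ y ∈ {y | G.edist x y ≤ (s : ℕ∞)}, G.neighborSet y) =
          (((Set.toFinset {y | G.edist x y ≤ (s : ℕ∞)}).biUnion
            (fun y => (G.neighborSet y).toFinset) : Finset A) : Set A) := by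
        ext z
        simp
      rw [hU, Set.ncard_coe_finset]
      refine (Finset.card_biUnion_le_card_mul _ _ T ?_).trans ?_
      · intro y hy
        rw [← Set.ncard_eq_toFinset_card']
        refine h y ?_
        have h1 : G.edist x y ≤ (s : ℕ∞) := by simpa using hy
        exact h1.trans (by exact_mod_cast (by omega : s ≤ r))
      · refine Nat.mul_le_mul_right T ?_
        rw [← Set.ncard_eq_toFinset_card']
        exact ih'
    calc {y | G.edist x y ≤ ((s + 1 : ℕ) : ℕ∞)}.ncard ≤ _ :=
          Set.ncard_le_ncard hsub (Set.toFinite _)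
      _ ≤ _ := Set.ncard_union_le _ _
      _ ≤ (T + 1) ^ s + (T + 1) ^ s * T := add_le_add ih' hun
      _ = (T + 1) ^ (s + 1) := by ring

/-- The ball of radius `r` around a point of `S` has at most `(T + 1) ^ r` points. -/
theorem exists_scattered (T r N : ℕ) : ∃ K : ℕ, ∀ (A : Type) [Finite A] (G : SimpleGraph A)
    (S : Set A), (∀ x ∈ S, ∀ y, G.edist x y ≤ r → (G.neighborSet y).ncard ≤ T) → K ≤ S.ncard →
    ∃ y : Fin N → A, (∀ i, y i ∈ S) ∧ ∀ i j, i ≠ j → (r : ℕ∞) < G.edist (y i) (y j) := by
  induction N with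
  | zero => exact ⟨0, fun A _ G S _ _ => ⟨fun i => i.elim0, fun i => i.elim0, fun i => i.elim0⟩⟩
  | succ N ih =>
    obtain ⟨K, hK⟩ := ih
    refine ⟨K + (T + 1) ^ r, ?_⟩
    intro A _ G S hS hcard
    have hpos : 0 < S.ncard := lt_of_lt_of_le (by positivity) hcard
    obtain ⟨x, hx⟩ := Set.nonempty_of_ncard_ne_zero hpos.ne'
    have hball := ball_ncard_le G T r x (hS x hx) r le_rfl
    obtain ⟨y, hy, hd⟩ := hK A G (S \ {y | G.edist x y ≤ r}) (fun z hz => hS z hz.1) (by
      have h1 := Set.le_ncard_sdiff {y | G.edist x y ≤ (r : ℕ∞)} S (Set.toFinite _)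
      omega)
    refine ⟨Fin.cons x y, ?_, ?_⟩
    · intro i
      refine Fin.cases ?_ ?_ i
      · simpa using hx
      · intro i
        simpa using (hy i).1
    · intro i j
      refine Fin.cases ?_ ?_ i
      · refine Fin.cases ?_ ?_ j
        · intro h
          exact absurd rfl h
        · intro j _
          simp only [Fin.cons_zero, Fin.cons_succ]
          exact not_le.1 (hy j).2
      · intro i
        refine Fin.cases ?_ ?_ j
        · intro _
          simp only [Fin.cons_zero, Fin.cons_succ]
          rw [SimpleGraph.edist_comm]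
          exact not_le.1 (hy i).2
        · intro j hij
          simp only [Fin.cons_succ]
          exact hd i j (fun h => hij (by rw [h]))

end Pool.Agent.Helper37.GH
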