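import Mathlib
import Pool.Agent.Helper37.GH.Isom
import Pool.Agent.Helper72.TW.LtMap

/-!
# GH-14: the disjoint sum, local types of the points of the structure
-/

set_option autoImplicit false

namespace Pool.Agent.Helper37.GH

open FirstOrder FirstOrder.Language
open Pool.Agent.Helper72.TW
open Pool.Agent.Helper79.TL (gaifman)

variable {L : FirstOrder.Language.{0, 0}}

theorem finite_Q (hf : Finite (Σ n, L.Relations n)) : Finite (Q L) := by
  unfold Q
  infer_instance

theorem coh_lgA (A : Type) [L.Structure A] : Coh (lgA L A) (lgA L A) := by
  intro u v u' v' _ _ h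
  have key : ∀ (s : Σ n, L.Relations n) (f : Fin s.1 → Bool),
      Structure.RelMap s.2 (fun i => if f i then v else u) =
        Structure.RelMap s.2 (fun i => if f i then v' else u') := fun s f =>
    congrFun (congrFun h s) f
  refine ⟨?_, ?_, ?_⟩
  · funext s f
    have h1 := key s (fun i => !f i)
    have e1 : (fun i => if (!f i) = true then v else u) = fun i => if f i then u else v := by
      funext i
      cases f i <;> rfl
    have e2 : (fun i => if (!f i) = true then v' else u') = fun i => if f i then u' else v' := by
      funext i
      cases f i <;> rfl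
    rw [e1, e2] at h1
    exact h1
  · funext s f
    have h1 := key s (fun _ => false)
    have e1 : ∀ z : A, (fun i => if f i then z else z) = fun _ => z := by
      intro z
      funext i
      cases f i <;> rfl
    show Structure.RelMap s.2 (fun i => if f i then u else u) =
      Structure.RelMap s.2 (fun i => if f i then u' else u')
    rw [e1, e1]
    exact h1
  · funext s f
    have h1 := key s (fun _ => true)
    have e1 : ∀ z : A, (fun i => if f i then z else z) = fun _ => z := by
      intro z
      funext i
      cases f i <;> rfl
    show Structure.RelMap s.2 (fun i => if f i then v else v) =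
      Structure.RelMap s.2 (fun i => if f i then v' else v')
    rw [e1, e1]
    exact h1

private theorem dm_near {V : Type} (B : ℕ) (G : SimpleGraph V) {x y : V} (h : x = y ∨ G.Adj x y) :
    dm B G x y ≤ 1 := by
  have h1 : G.edist x y ≤ 1 := by
    rcases h with rfl | h
    · rw [SimpleGraph.edist_self]
      exact zero_le_one
    · exact (SimpleGraph.edist_eq_one_iff_adj.2 h).le
  unfold dm
  refine ENat.toNat_le_of_le_natCast ?_
  exact (min_le_left _ _).trans (by exact_mod_cast h1)

theorem local_A (A : Type) [L.Structure A] {B : ℕ} (hB : 1 ≤ B) :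
    (strA L A).Local (dm B (gaifman L A)) := by
  intro n R v hR i j
  refine dm_near B _ ?_
  by_cases hij : v i = v j
  · exact Or.inl hij
  · exact Or.inr ⟨hij, n, R, v, hR, ⟨i, rfl⟩, ⟨j, rfl⟩⟩

theorem local_S (A : Type) [L.Structure A] {K : Type} (E : LG (Q L) K) {B : ℕ} (hB : 1 ≤ B) :
    (strS L A E).Local (dS B (gaifman L A) E.G) := by
  intro n R v hR i j
  rcases hR with ⟨w, rfl, hw⟩ | ⟨u, rfl, k, k', f, hk, hu, -⟩
  · exact local_A A hB n R w hw i j
  · show dm B E.G (u i) (u j) ≤ 1
    refine dm_near B _ ?_
    rw [hu i, hu j]
    cases f i <;> cases f j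
    · exact Or.inl rfl
    · exact hk
    · rcases hk with h | h
      · exact Or.inl h.symm
      · exact Or.inr h.symm
    · exact Or.inl rfl

theorem models_A (hL : ∀ n, IsEmpty (L.Functions n)) (A : Type) [L.Structure A] (φ : L.Sentence) :
    (strA L A).Models hL φ ↔ φ.Realize A := by
  letI := (strA L A).toStructure hL
  let e : A ≃[L] {x : A // (strA L A).D x} :=
    { (Equiv.subtypeUnivEquiv (p := (strA L A).D) (fun _ => trivial)).symm with
      map_fun' := fun f _ => ((hL _).false f).elim
      map_rel' := fun _ _ => Iff.rfl }
  exact (StrongHomClass.realize_sentence e φ).symm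

/-- `lt_map` with `e = Sum.inl`; the points of the other part have distance `B > rad g`. The nullary relations of both
structures agree by `Null` (if `K` is empty this is clear). -/
theorem lt_inl (A : Type) [L.Structure A] {K : Type} (E : LG (Q L) K) (hn : Null A E) {B g : ℕ}
    (hB : rad g < B) (a : A) :
    lt (strS L A E) (dS B (gaifman L A) E.G) g 1 (fun _ => Sum.inl a) =
      lt (strA L A) (dm B (gaifman L A)) g 1 (fun _ => a) := by
  refine (lt_map (S := strS L A E) (S' := strA L A) (d := dS B (gaifman L A) E.G)
    (d' := dm B (gaifman L A)) (dS_pm B _ _) Sum.inl Sum.inl_injective (fun _ _ => rfl) g 1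
    (fun _ => a) (fun _ => trivial) ?_ (fun _ _ => Iff.rfl) ?_).symm
  · rintro (x | k) - ⟨i, hi⟩
    · exact ⟨x, rfl⟩
    · exact absurd (show B ≤ rad g from hi) (not_le.2 hB)
  · intro n R v _
    constructor
    · intro h
      exact Or.inl ⟨v, rfl, h⟩
    · rintro (⟨w, hw, h⟩ | ⟨u, hu, k, k', f, hk, -, hel⟩)
      · have : v = w := funext fun i => Sum.inl_injective (congrFun hw i)
        rw [this]
        exact h
      · rcases Nat.eq_zero_or_pos n with rfl | hpos
        · have h1 := (hn R k k' f hk).1 hel
          have : v = default := Subsingleton.elim _ _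
          rw [this]
          exact h1
        · exact absurd (congrFun hu ⟨0, hpos⟩) (by simp)

end Pool.Agent.Helper37.GH
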