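import Mathlib
import Pool.Agent.Helper37.GH.Isom
import Pool.Agent.Helper72.TW.LtMap

/-!
# GH-15: local types of the points of the covering graph
-/

set_option autoImplicit false

namespace Pool.Agent.Helper37.GH

open FirstOrder FirstOrder.Language
open Pool.Agent.Helper72.TW
open Pool.Agent.Helper79.TL (gaifman)

variable {L : FirstOrder.Language.{0, 0}}

private theorem adj_levels {V : Type} {G : SimpleGraph V} {T R : ℕ} {x : V} (h : Lev G T R x)
    {a b : V} {ra rb : ℕ} (ha : G.edist x a = ra) (hb : G.edist x b = rb) (hra : ra ≤ R)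
    (hab : G.Adj a b) : ra = rb + 1 ∨ rb = ra + 1 := by
  have h1 : G.edist a b = 1 := SimpleGraph.edist_eq_one_iff_adj.2 hab
  have t1 : G.edist x b ≤ G.edist x a + G.edist a b := SimpleGraph.edist_triangle
  have t2 : G.edist x a ≤ G.edist x b + G.edist b a := SimpleGraph.edist_triangle
  rw [SimpleGraph.edist_comm (u := b), h1, ha, hb] at t2
  rw [h1, ha, hb] at t1
  have t1' : rb ≤ ra + 1 := by exact_mod_cast t1
  have t2' : ra ≤ rb + 1 := by exact_mod_cast t2
  have hne : ra ≠ rb := by
    rintro rfl
    exact h.flat ra a b hra ha hb hab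
  omega

private theorem level_of_le {V : Type} {G : SimpleGraph V} {R : ℕ} {x a : V}
    (h : G.edist x a ≤ R) : ∃ r : ℕ, G.edist x a = r ∧ r ≤ R := by
  have hne : G.edist x a ≠ ⊤ := ne_top_of_le_ne_top (ENat.natCast_ne_top R) h
  obtain ⟨r, hr⟩ := ENat.ne_top_iff_exists.1 hne
  refine ⟨r, hr.symm, ?_⟩
  rw [← hr] at h
  exact_mod_cast h

/-- In a tree ball a tuple of a relation has at most two different entries (adjacent points have levels that differ
by one), so the relations are described by the labels. -/
theorem rel_ball (A : Type) [L.Structure A] {T R : ℕ} {x : A} (h : Lev (gaifman L A) T R x) {n : ℕ}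
    (r : L.Relations n) (v : Fin n → A) (hv : ∀ i, (gaifman L A).edist x (v i) ≤ R)
    (hr : Structure.RelMap r v) (hn : 0 < n) :
    ∃ (y z : A) (f : Fin n → Bool), (y = z ∨ (gaifman L A).Adj y z) ∧
      (gaifman L A).edist x y ≤ R ∧ (gaifman L A).edist x z ≤ R ∧
      (∀ i, v i = if f i then z else y) ∧ (lgA L A).el y z ⟨n, r⟩ f := by
  classical
  have hadj : ∀ i j, v i ≠ v j → (gaifman L A).Adj (v i) (v j) := fun i j hij =>
    ⟨hij, n, r, v, hr, ⟨i, rfl⟩, ⟨j, rfl⟩⟩
  by_cases hall : ∀ i, v i = v ⟨0, hn⟩
  · refine ⟨v ⟨0, hn⟩, v ⟨0, hn⟩, fun _ => false, Or.inl rfl, hv _, hv _, fun i => ?_, ?_⟩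
    · simpa using hall i
    · show Structure.RelMap r (fun i => if false = true then v ⟨0, hn⟩ else v ⟨0, hn⟩)
      have : (fun _ : Fin n => if false = true then v ⟨0, hn⟩ else v ⟨0, hn⟩) = v := by
        funext i
        rw [hall i]
        simp
      rw [this]
      exact hr
  · push Not at hall
    obtain ⟨j, hj⟩ := hall
    have htwo : ∀ i, v i = v ⟨0, hn⟩ ∨ v i = v j := by
      intro i
      by_contra hcon
      push Not at hcon
      obtain ⟨r0, h0, h0R⟩ := level_of_le (hv ⟨0, hn⟩)
      obtain ⟨r1, h1, h1R⟩ := level_of_le (hv j)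
      obtain ⟨r2, h2, h2R⟩ := level_of_le (hv i)
      have e1 := adj_levels h h0 h1 h0R (hadj _ _ (Ne.symm hj))
      have e2 := adj_levels h h0 h2 h0R (hadj _ _ (Ne.symm hcon.1))
      have e3 := adj_levels h h1 h2 h1R (hadj _ _ (Ne.symm hcon.2))
      omega
    have hvf : ∀ i, v i = if decide (v i = v j) = true then v j else v ⟨0, hn⟩ := by
      intro i
      by_cases hi : v i = v j
      · simp [hi]
      · rw [if_neg (by simpa using hi)]
        rcases htwo i with h1 | h1
        · exact h1
        · exact absurd h1 hi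
    refine ⟨v ⟨0, hn⟩, v j, fun i => decide (v i = v j), Or.inr (hadj _ _ (Ne.symm hj)), hv _,
      hv _, hvf, ?_⟩
    show Structure.RelMap r (fun i => if decide (v i = v j) = true then v j else v ⟨0, hn⟩)
    have : (fun i => if decide (v i = v j) = true then v j else v ⟨0, hn⟩) = v := by
      funext i
      exact (hvf i).symm
    rw [this]
    exact hr

/-- `e` preserves the relations on the ball of radius `R - 1`. -/
theorem rel_iso (A : Type) [L.Structure A] {K : Type} {E : LG (Q L) K} (hn : Null A E) {T R : ℕ}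
    {x : A} {k : K} {e : A → K} (h : Lev (gaifman L A) T R x) (he : BallIso (lgA L A) E R x k e)
    {n : ℕ} (r : L.Relations n) (v : Fin n → A)
    (hv : ∀ i, (gaifman L A).edist x (v i) + 1 ≤ R) :
    Structure.RelMap r v ↔ (strS L A E).rel n r (fun i => Sum.inr (e (v i))) := by
  have hvR : ∀ i, (gaifman L A).edist x (v i) ≤ R := fun i => le_self_add.trans (hv i)
  rcases Nat.eq_zero_or_pos n with rfl | hpos
  · constructor
    · intro hr
      exact Or.inl ⟨v, by funext i; exact i.elim0, hr⟩
    · rintro (⟨w, -, hw⟩ | ⟨u, -, k1, k2, f, hk, -, hf⟩)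
      · rw [Subsingleton.elim v w]
        exact hw
      · rw [Subsingleton.elim v default]
        exact (hn r k1 k2 f hk).1 hf
  · constructor
    · intro hr
      obtain ⟨y, z, f, hyz, hy, hz, hvf, hel⟩ := rel_ball A h r v hvR hr hpos
      refine Or.inr ⟨fun i => e (v i), rfl, e y, e z, f, ?_, fun i => ?_, ?_⟩
      · rcases hyz with rfl | hyz
        · exact Or.inl rfl
        · exact Or.inr ((he.adj y z hy hz).1 hyz)
      · show e (v i) = if f i = true then e z else e y
        rw [hvf i]
        split_ifs <;> rfl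
      · rw [← he.lab y z hy hz hyz]
        exact hel
    · rintro (⟨w, hw, -⟩ | ⟨u, hu, k1, k2, f, hk, hf, hel⟩)
      · have := congrFun hw ⟨0, hpos⟩
        simp at this
      · have hu' : ∀ i, e (v i) = u i := fun i => by
          have := congrFun hu i
          exact Sum.inr.inj this
        have hd12 : E.G.edist k1 k2 ≤ 1 := by
          rcases hk with rfl | hk
          · simp
          · exact (SimpleGraph.edist_eq_one_iff_adj.2 hk).le
        have hd21 : E.G.edist k2 k1 ≤ 1 := by
          rw [SimpleGraph.edist_comm]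
          exact hd12
        have h0 : E.G.edist k (e (v ⟨0, hpos⟩)) + 1 ≤ R := by
          rw [he.dist _ (hvR _)]
          exact hv _
        have hboth : E.G.edist k k1 ≤ R ∧ E.G.edist k k2 ≤ R := by
          have h00 := hf ⟨0, hpos⟩
          rw [← hu'] at h00
          by_cases hff : f ⟨0, hpos⟩ = true
          · rw [if_pos hff] at h00
            rw [h00] at h0
            exact ⟨(SimpleGraph.edist_triangle (v := k2)).trans
              ((add_le_add le_rfl hd21).trans h0), le_self_add.trans h0⟩
          · rw [if_neg hff] at h00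
            rw [h00] at h0
            exact ⟨le_self_add.trans h0, (SimpleGraph.edist_triangle (v := k1)).trans
              ((add_le_add le_rfl hd12).trans h0)⟩
        obtain ⟨y, hy, hy'⟩ := he.surj k1 hboth.1
        obtain ⟨z, hz, hz'⟩ := he.surj k2 hboth.2
        subst hy' hz'
        have hyz : y = z ∨ (lgA L A).G.Adj y z := by
          rcases hk with hk | hk
          · exact Or.inl (he.inj y z hy hz hk)
          · exact Or.inr ((he.adj y z hy hz).2 hk)
        have hvf : v = fun i => if f i = true then z else y := by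
          funext i
          have h1 := hf i
          rw [← hu'] at h1
          split_ifs with hi
          · rw [if_pos hi] at h1
            exact he.inj _ _ (hvR i) hz h1
          · rw [if_neg hi] at h1
            exact he.inj _ _ (hvR i) hy h1
        rw [← he.lab y z hy hz hyz] at hel
        rw [hvf]
        exact hel

/-- `lt_map` twice, from the ball of radius `R0` around `x` (a subtype of `A` with the capped distance `dm B` and the
relations of `A`) to `A` (inclusion) and to the sum (`y ↦ Sum.inr (e y)`, an isometry by `isometry`). -/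
theorem lt_inr (A : Type) [L.Structure A] {K : Type} (E : LG (Q L) K) (hn : Null A E)
    {T R R0 B g : ℕ} (hB : rad g < B) (hR0 : rad g ≤ R0) (hR : 3 * R0 + 1 ≤ R) {x : A} {k : K}
    {e : A → K} (h : Lev (gaifman L A) T R x) (he : BallIso (lgA L A) E R x k e) :
    lt (strS L A E) (dS B (gaifman L A) E.G) g 1 (fun _ => Sum.inr k) =
      lt (strA L A) (dm B (gaifman L A)) g 1 (fun _ => x) := by
  have hx0 : (gaifman L A).edist x x ≤ (R0 : ℕ∞) := by simp
  have hle : ∀ y : A, (gaifman L A).edist x y ≤ (R0 : ℕ∞) → (gaifman L A).edist x y ≤ (R : ℕ∞) :=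
    fun y hy => hy.trans (by exact_mod_cast (by omega : R0 ≤ R))
  have h1R : ∀ y : A, (gaifman L A).edist x y ≤ (R0 : ℕ∞) →
      (gaifman L A).edist x y + 1 ≤ (R : ℕ∞) := fun y hy =>
    (add_le_add hy le_rfl).trans (by exact_mod_cast (by omega : R0 + 1 ≤ R))
  let X' : Type := {y : A // (gaifman L A).edist x y ≤ (R0 : ℕ∞)}
  let S' : Str L X' := { D := fun _ => True, rel := fun _ r v => Structure.RelMap r (fun j => (v j).1) }
  let d' : X' → X' → ℕ := fun y z => dm B (gaifman L A) y.1 z.1
  let a : Fin 1 → X' := fun _ => ⟨x, hx0⟩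
  have e1 : lt S' d' g 1 a = lt (strA L A) (dm B (gaifman L A)) g 1 (fun i => (a i).1) := by
    refine lt_map (S := strA L A) (S' := S') (dm_pm B (gaifman L A)) (fun y : X' => y.1)
      Subtype.val_injective (fun _ _ => rfl) g 1 a (fun _ => trivial) ?_ (fun _ _ => Iff.rfl)
      (fun _ _ _ _ => Iff.rfl)
    rintro y - ⟨_, hy⟩
    refine ⟨⟨y, ?_⟩, rfl⟩
    have := (dm_le_iff (gaifman L A) hB y x).1 hy
    rw [SimpleGraph.edist_comm] at this
    exact this.trans (by exact_mod_cast hR0)
  have e2 : lt S' d' g 1 a = lt (strS L A E) (dS B (gaifman L A) E.G) g 1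
      (fun i => Sum.inr (e (a i).1)) := by
    refine lt_map (S := strS L A E) (S' := S') (dS_pm B (gaifman L A) E.G)
      (fun y : X' => Sum.inr (e y.1)) ?_ ?_ g 1 a (fun _ => trivial) ?_
      (fun _ _ => Iff.rfl) ?_
    · intro y z hyz
      exact Subtype.ext (he.inj _ _ (hle _ y.2) (hle _ z.2) (Sum.inr.inj hyz))
    · intro y z
      show dm B E.G (e y.1) (e z.1) = dm B (gaifman L A) y.1 z.1
      unfold dm
      rw [isometry (by omega : 3 * R0 ≤ R) he y.2 z.2]
      rfl
    · rintro (p | p) - ⟨_, hp⟩
      · have : B ≤ rad g := hp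
        omega
      · have hp' : dm B E.G p (e x) ≤ rad g := hp
        have h1 := (dm_le_iff E.G hB p (e x)).1 hp'
        rw [SimpleGraph.edist_comm, he.root] at h1
        have h2 : E.G.edist k p ≤ (R0 : ℕ∞) := h1.trans (by exact_mod_cast hR0)
        obtain ⟨y, hy, rfl⟩ := he.surj p (h2.trans (by exact_mod_cast (by omega : R0 ≤ R)))
        rw [he.dist y hy] at h2
        exact ⟨⟨y, h2⟩, rfl⟩
    · intro n r v _
      exact rel_iso A hn h he r (fun j => (v j).1) fun j => h1R _ (v j).2
  have e3 : lt (strS L A E) (dS B (gaifman L A) E.G) g 1 (fun _ => Sum.inr (e x)) =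
      lt (strA L A) (dm B (gaifman L A)) g 1 (fun _ => x) := e2.symm.trans e1
  rw [he.root] at e3
  exact e3

end Pool.Agent.Helper37.GH
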