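import Mathlib
import Pool.Agent.Helper37.GH.SumA
import Pool.Agent.Helper37.GH.SumK
import Pool.Agent.Helper72.TW.Glob

/-!
# GH-16: adding a structure with frequent local types does not change a sentence
-/

set_option autoImplicit false

namespace Pool.Agent.Helper37.GH

open FirstOrder FirstOrder.Language
open Pool.Agent.Helper72.TW
open Pool.Agent.Helper79.TL (gaifman)

/-- `local_global` for `strA` and `strS`: a scattered set in `A` is one in the sum; conversely a scattered set of the sum
either consists of points of `A` or its type is the type of a point of `K`, which has `q + 1` scattered points in `A`. -/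
theorem sum_models {L : FirstOrder.Language.{0, 0}} (hL : ∀ n, IsEmpty (L.Functions n))
    (φ : L.Sentence) : ∃ q : ℕ, ∀ (A : Type) [L.Structure A] [Nonempty A] [Finite A]
      (K : Type) [Finite K]
      (E : LG (Q L) K) (B T R R0 : ℕ), Null A E → 2 * 3 ^ (q * (q + 1)) < B →
      rad (q * (q + 1)) ≤ R0 → 3 * R0 + 1 ≤ R →
      (∀ k : K, ∃ y : Fin (q + 1) → A, (∀ i, Lev (gaifman L A) T R (y i) ∧
          ∃ e : A → K, BallIso (lgA L A) E R (y i) k e) ∧
          ∀ i j, i ≠ j → ((2 * 3 ^ (q * (q + 1)) : ℕ) : ℕ∞) < (gaifman L A).edist (y i) (y j)) →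
      φ.Realize A → ∃ (M' : Type) (_ : L.Structure M'), Nat.card M' = Nat.card A + Nat.card K ∧
        (Finite A → Finite M') ∧ φ.Realize M' := by
  obtain ⟨q, hq⟩ := local_global hL φ
  refine ⟨q, ?_⟩
  intro A _ hne _ K _ E B T R R0 hn hB hR0 hR hk hA
  have hB1 : 1 ≤ B := by omega
  have hrad : ∀ g, g ≤ q * (q + 1) → rad g < B := by
    intro g hg
    have h1 := rad_lt (q * (q + 1))
    have h2 := rad_mono hg
    omega
  have hsc : ∀ g, g ≤ q * (q + 1) → ∀ (τ : LT L g 1) (n : ℕ), n ≤ q + 1 →
      (Scat (strA L A) (dm B (gaifman L A)) g τ n ↔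
        Scat (strS L A E) (dS B (gaifman L A) E.G) g τ n) := by
    intro g hg τ n hnq
    constructor
    · rintro ⟨y, hy, hyd⟩
      refine ⟨fun i => Sum.inl (y i), fun i => ⟨trivial, ?_⟩, fun i j hij => hyd i j hij⟩
      exact (lt_inl A E hn (hrad g hg) (y i)).trans (hy i).2
    · rintro ⟨y, hy, hyd⟩
      by_cases hall : ∀ i, ∃ a, y i = Sum.inl a
      · choose a ha using hall
        refine ⟨a, fun i => ⟨trivial, ?_⟩, fun i j hij => ?_⟩
        · have h1 := (hy i).2
          rw [ha i] at h1
          exact (lt_inl A E hn (hrad g hg) (a i)).symm.trans h1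
        · have h1 := hyd i j hij
          rw [ha i, ha j] at h1
          exact h1
      · push Not at hall
        obtain ⟨i0, hi0⟩ := hall
        obtain ⟨k, hk0⟩ : ∃ k, y i0 = Sum.inr k := by
          rcases h : y i0 with a | k
          · exact absurd h (hi0 a)
          · exact ⟨k, rfl⟩
        obtain ⟨z, hz, hzd⟩ := hk k
        have hτ := (hy i0).2
        rw [hk0] at hτ
        refine ⟨fun i => z (Fin.castLE hnq i), fun i => ⟨trivial, ?_⟩, fun i j hij => ?_⟩
        · obtain ⟨hlev, e, he⟩ := hz (Fin.castLE hnq i)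
          exact (lt_inr A E hn (hrad g hg) ((rad_mono hg).trans hR0) hR hlev he).symm.trans hτ
        · have hpow : 3 ^ g ≤ 3 ^ (q * (q + 1)) := Nat.pow_le_pow_right (by omega) hg
          have h1 := hzd (Fin.castLE hnq i) (Fin.castLE hnq j)
            (fun h => hij (Fin.castLE_injective hnq h))
          have h2 : ¬ dm B (gaifman L A) (z (Fin.castLE hnq i)) (z (Fin.castLE hnq j))
              ≤ 2 * 3 ^ g := by
            rw [dm_le_iff (gaifman L A) (show 2 * 3 ^ g < B by omega)]
            intro h3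
            have h4 : ((2 * 3 ^ g : ℕ) : ℕ∞) ≤ ((2 * 3 ^ (q * (q + 1)) : ℕ) : ℕ∞) := by
              exact_mod_cast (show 2 * 3 ^ g ≤ 2 * 3 ^ (q * (q + 1)) by omega)
            exact absurd (h1.trans_le (h3.trans h4)) (lt_irrefl _)
          exact not_le.1 h2
  have hmain := hq A (A ⊕ K) (dm B (gaifman L A)) (dS B (gaifman L A) E.G) (strA L A)
    (strS L A E) (dm_pm B _) (dS_pm B _ _) (local_A A hB1) (local_S A E hB1)
    ⟨hne.some, trivial⟩ hsc
  have hfin : Finite {x : A ⊕ K // (strS L A E).D x} := inferInstance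
  refine ⟨{x : A ⊕ K // (strS L A E).D x}, (strS L A E).toStructure hL, ?_, fun _ => hfin,
    hmain.1 ((models_A hL A φ).2 hA)⟩
  rw [← Nat.card_sum]
  exact Nat.card_congr (Equiv.subtypeUnivEquiv (fun _ => trivial))

end Pool.Agent.Helper37.GH
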