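import Mathlib
import Pool.Agent.Helper37.GH.Level
import Pool.Agent.Helper37.GH.Glue
import Pool.Agent.Helper37.GH.Dick
import Pool.Agent.Helper37.GH.Grp
import Pool.Agent.Helper37.GH.NoCyc
import Pool.Agent.Helper37.GH.CovCls
import Pool.Agent.Helper37.GH.Match
import Pool.Agent.Helper37.GH.Count
import Pool.Agent.Helper37.GH.Scat
import Pool.Agent.Helper37.GH.Sum

/-!
# GH: structures with a large tree-like part can be pumped (assembly)
-/

set_option autoImplicit false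

namespace Pool.Agent.Helper37.GH

open FirstOrder FirstOrder.Language
open Pool.Agent.Helper72.TW
open Pool.Agent.Helper79.TL (gaifman)

theorem pump_tree {L : FirstOrder.Language.{0, 0}} (hL : ∀ n, IsEmpty (L.Functions n))
    (hf : Finite (Σ n, L.Relations n)) (φ : L.Sentence) (d : ℕ) :
    ∃ C p : ℕ, 0 < C ∧ 0 < p ∧ ∀ (A : Type) [L.Structure A] [Finite A], φ.Realize A →
      (∃ X : Set A, TreePart (gaifman L A) d C X) → ∀ j : ℕ, ∃ (M' : Type) (_ : L.Structure M'),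
        Finite M' ∧ Nat.card M' = Nat.card A + j * p ∧ φ.Realize M' := by
  classical
  obtain ⟨q, hq⟩ := sum_models hL φ
  set G0 := q * (q + 1) with hG0
  set R0 := rad G0 with hR0
  set R := 3 * R0 + 1 with hR
  set B := 2 * 3 ^ G0 + 1 with hB
  have hQ : Finite (Q L) := finite_Q hf
  have hCl : Finite (Cl (Q L) d R) := finite_Cl _ _ _
  have hRt : Fintype (Rt (Q L) d R) := Fintype.ofFinite _
  obtain ⟨B', hB'⟩ := exists_sol (Rt (Q L) d R) (Cl (Q L) d R × Cl (Q L) d R) Prod.swap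
    Prod.swap_swap (fun γ c => (γ.2 c : ℕ)) d
  obtain ⟨Ks, hKs⟩ := exists_scattered d (2 * 3 ^ G0) (q + 1)
  obtain ⟨C1, hC1⟩ := hB' (Ks + 1)
  obtain ⟨F, hF⟩ := exists_group (d * (2 * B')) (2 * R + 1)
  refine ⟨C1 + (2 * R + 1) + 2 * 3 ^ G0, (2 * B' * F).factorial, by omega, Nat.factorial_pos _, ?_⟩
  intro A _ _ hφ hX j
  obtain ⟨X, hX1, hX2⟩ := hX
  set C := C1 + (2 * R + 1) + 2 * 3 ^ G0 with hC
  set b := {x | x ∈ X ∧ ∃ z, z ∉ X ∧ (gaifman L A).Adj x z}.ncard with hb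
  have hdeg : ∀ x ∈ X, ((gaifman L A).neighborSet x).ncard ≤ d := by
    intro x hx
    exact (hX2 x hx x (by simp)).1
  have hloc : ∀ x ∈ X, Loc (gaifman L A) d (2 * R + 1) R x := by
    intro x hx y hy
    obtain ⟨h1, h2⟩ := hX2 x hx y (hy.trans (by exact_mod_cast (by omega : R ≤ C)))
    exact ⟨h1, fun w hw => lt_of_le_of_lt (by omega) (h2 w hw)⟩
  have hlev : ∀ x ∈ X, Lev (gaifman L A) d R x := fun x hx => lev_of_loc le_rfl (hloc x hx)
  -- the balanced vector
  obtain ⟨h, h0, hhB, hbal, hfreq⟩ := hC1 (fun γ => {x | x ∈ X ∧ rt (lgA L A) d R x = γ}.ncard) b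
    (fun c => balance (lgA L A) d R b X hdeg le_rfl c) (by
      rw [sum_classes (lgA L A) d R X]
      exact (Nat.mul_le_mul_right _ (by omega)).trans hX1)
  -- the dart system
  obtain ⟨V0, D, hV0, hD, src, ι, ρ, ν, hι, hι', hν, hcls, hcV, hcD, hρ⟩ :=
    exists_sys (lgA L A) d R h (fun x => x ∈ X) hdeg (by
      intro γ hγ
      have h1 := hfreq γ
      have h2 : 0 < {x | x ∈ X ∧ rt (lgA L A) d R x = γ}.ncard := by
        have : 0 < (Ks + 1) * h γ := Nat.mul_pos (by omega) (Nat.pos_of_ne_zero hγ)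
        omega
      obtain ⟨x, hx⟩ := (Set.ncard_pos (Set.toFinite _)).1 h2
      exact ⟨x, hx.1, hx.2⟩) hbal
  rcases Nat.eq_zero_or_pos j with rfl | hj
  · exact ⟨A, inferInstance, inferInstance, by simp, hφ⟩
  obtain ⟨m, hm, hmF, hgrp⟩ := hF D (hcD.trans (Nat.mul_le_mul_left _ (Nat.mul_le_mul_left _ hhB)))
    ι hι hι'
  have hVpos : 0 < Nat.card V0 := by
    rw [hcV]
    have : 0 < ∑ γ, h γ := by
      rw [Finset.sum_pos_iff]
      by_contra hcon
      apply h0
      funext γ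
      by_contra hγ
      exact hcon ⟨γ, Finset.mem_univ _, Nat.pos_of_ne_zero hγ⟩
    omega
  have hdvd : Nat.card V0 * m ∣ (2 * B' * F).factorial := by
    refine Nat.dvd_factorial (Nat.mul_pos hVpos hm) ?_
    rw [hcV]
    exact Nat.mul_le_mul (Nat.mul_le_mul_left _ hhB) hmF
  obtain ⟨t0, ht0⟩ := hdvd
  have ht0' : 0 < t0 := by
    rcases Nat.eq_zero_or_pos t0 with h1 | h1
    · rw [h1, mul_zero] at ht0
      exact absurd ht0 (Nat.factorial_ne_zero _)
    · exact h1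
  obtain ⟨H, hH, hHf, g, hcH, hg, hN⟩ := hgrp (t0 * j) (Nat.mul_pos ht0' hj)
  let S : DS V0 D H := ⟨src, ι, g, hι, hι', hg⟩
  have hN2 : NoRel S.ι S.g 2 := fun w h1 h2 h3 => hN w h1 (by omega) h3
  let E := covLG S (fun v => (lgA L A).el (ρ v) (ρ v)) (fun e => (lgA L A).el (ρ (S.src e)) (ν e))
  have : Nonempty A := by
    obtain ⟨v⟩ : Nonempty V0 := (Nat.card_pos_iff.1 hVpos).1
    exact ⟨ρ v⟩
  have hlevK : ∀ k : V0 × H, Lev E.G d R k := by
    intro k
    refine lev_of_loc (C := 2 * R + 1) le_rfl fun y _ => ⟨?_, fun w hw => ?_⟩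
    · have h1 := (bij_nbr hN2 y)
      have h2 : ((cov S).neighborSet y).ncard = {e | S.src e = y.1}.ncard := by
        rw [← h1.image_eq, h1.injOn.ncard_image]
      have h3 : {e | S.src e = y.1}.ncard = ((gaifman L A).neighborSet (ρ y.1)).ncard := by
        have h4 : Set.BijOn ν {e | S.src e = y.1} ((gaifman L A).neighborSet (ρ y.1)) := hν y.1
        rw [← h4.image_eq, h4.injOn.ncard_image]
      show ((cov S).neighborSet y).ncard ≤ d
      rw [h2, h3]
      exact hdeg _ (hρ _).1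
    · exact no_cycle (by omega) hN y w hw
  have hcoh : Coh (lgA L A) E := coh_cov (lgA L A) (coh_lgA A) d R S hN2 ρ ν hν hcls
  have hrt : ∀ k : V0 × H, rt E d R k = rt (lgA L A) d R (ρ k.1) :=
    rt_cov (lgA L A) d R S hN2 ρ ν hν hcls
  have hnull : Null A E := by
    intro r k k' f hk
    have key : ∀ a a' : A, (lgA L A).el a a' ⟨0, r⟩ f ↔
        Structure.RelMap r (default : Fin 0 → A) := by
      intro a a'
      show Structure.RelMap r _ ↔ _
      rw [Subsingleton.elim (fun i => if f i then a' else a) (default : Fin 0 → A)]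
    rcases hk with rfl | hk
    · have h1 : E.el k k = (lgA L A).el (ρ k.1) (ρ k.1) := el_self _ _ k
      rw [h1]
      exact key _ _
    · obtain ⟨e, he⟩ := (adj_iff hN2).1 hk
      have h1 : E.el k k' = (lgA L A).el (ρ (S.src e)) (ν e) := el_dart hN2 _ _ he
      rw [h1]
      exact key _ _
  obtain ⟨M', sM', hcM, hfM, hM⟩ := hq A (V0 × H) E B d R R0 hnull (by omega) le_rfl le_rfl (by
    intro k
    obtain ⟨hk1, hk2⟩ := hρ k.1
    obtain ⟨y, hy1, hy2⟩ := hKs A (gaifman L A) {x | x ∈ X ∧ rt (lgA L A) d R x =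
        rt (lgA L A) d R (ρ k.1)} (by
      rintro x ⟨hx, -⟩ y hy
      exact (hX2 x hx y (hy.trans (by exact_mod_cast (by omega : 2 * 3 ^ G0 ≤ C)))).1) (by
      have h1 := hfreq (rt (lgA L A) d R (ρ k.1))
      have h2 : (Ks + 1) * 1 ≤ (Ks + 1) * h (rt (lgA L A) d R (ρ k.1)) :=
        Nat.mul_le_mul_left _ (Nat.pos_of_ne_zero hk2)
      rw [mul_one] at h2
      exact (Nat.le_succ Ks).trans (h2.trans h1))
    refine ⟨y, fun i => ⟨hlev _ (hy1 i).1, ?_⟩, fun i j hij => ?_⟩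
    · exact tiso hcoh (hlev _ (hy1 i).1) (hlevK k) ((hy1 i).2.trans (hrt k).symm)
    · exact hy2 i j hij) hφ
  refine ⟨M', sM', hfM inferInstance, ?_, hM⟩
  rw [hcM, Nat.card_prod, hcH, ht0]
  ring

end Pool.Agent.Helper37.GH
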